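import Mathlib

open Set Cardinal

namespace Pool.Agent.Lib_helper69.Asp

/-- on a linearly independent sequence a linear functional can be prescribed -/
lemma exists_functional {V : Type*} [AddCommGroup V] [Module ℝ V] (v : ℕ → V)
    (hv : LinearIndependent ℝ v) : ∃ θ : V →ₗ[ℝ] ℝ, ∀ n : ℕ, θ (v n) = n := by
  let b := Module.Basis.span hv
  let g : Submodule.span ℝ (range v) →ₗ[ℝ] ℝ := b.constr ℝ (fun n : ℕ => (n : ℝ))
  obtain ⟨θ, hθ⟩ := LinearMap.exists_extend g
  refine ⟨θ, fun n => ?_⟩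
  have h1 : ((b n : Submodule.span ℝ (range v)) : V) = v n :=
    congrArg Subtype.val (Module.Basis.span_apply hv n)
  have h2 : g (b n) = n := Module.Basis.constr_basis b ℝ _ n
  rw [← h1, ← h2, ← hθ]
  rfl

lemma mk_seq_le {X : Type} (hX : #X ≤ 𝔠) : #(ℕ → X) ≤ 𝔠 := by
  rw [← Cardinal.power_def, mk_nat]
  calc #X ^ ℵ₀ ≤ 𝔠 ^ ℵ₀ := Cardinal.power_le_power_right hX
    _ = 𝔠 := continuum_power_aleph0

/-- **The space.** For every normed space `Y` of cardinality at most the continuum there is a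
linear subspace `E` of some product `Y × ℝ^I` which projects onto all countable subproducts
`Y × ℝ^Ψ`, and such that every linearly independent sequence of `E` is unbounded in some
coordinate `i ∈ I`. -/
theorem exists_space (Y : Type) [AddCommGroup Y] [Module ℝ Y] (hY : #Y ≤ 𝔠) :
    ∃ (I : Type) (_ : Nonempty I) (E : Submodule ℝ (Y × (I → ℝ))),
      (∀ (Ψ : ℕ → I) (y : Y) (c : I → ℝ), ∃ z ∈ E, z.1 = y ∧ ∀ n, z.2 (Ψ n) = c (Ψ n)) ∧
      (∀ w : ℕ → Y × (I → ℝ), (∀ n, w n ∈ E) → LinearIndependent ℝ w →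
        ∃ i, ∀ n : ℕ, (w n).2 i = n) := by
  classical
  let V : Type := ℝ →₀ ℝ
  let I : Type := {v : ℕ → V // LinearIndependent ℝ v}
  have hV : #V ≤ 𝔠 := by
    have : #(ℝ →₀ ℝ) = 𝔠 := by
      rw [Cardinal.mk_finsupp_of_infinite, Cardinal.mk_real, max_self]
    exact this.le
  have hI : #I ≤ 𝔠 := (mk_subtype_le _).trans (mk_seq_le hV)
  let Task : Type := (ℕ → I) × (ℕ → ℝ) × Y
  have hTask : #Task ≤ 𝔠 := by
    simp only [Task, mk_prod, lift_id]
    calc #(ℕ → I) * (#(ℕ → ℝ) * #Y) ≤ 𝔠 * (𝔠 * 𝔠) :=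
        mul_le_mul' (mk_seq_le hI) (mul_le_mul' (mk_seq_le mk_real.le) hY)
      _ = 𝔠 := by rw [continuum_mul_self, continuum_mul_self]
  have hTR : #(Task × ℝ) ≤ #ℝ := by
    rw [mk_prod, lift_id, lift_id, mk_real]
    calc #Task * 𝔠 ≤ 𝔠 * 𝔠 := mul_le_mul' hTask le_rfl
      _ = 𝔠 := continuum_mul_self
  obtain ⟨e⟩ : Nonempty (Task × ℝ ↪ ℝ) := hTR
  let supp : I → Set ℝ := fun i => ⋃ m, ((i.1 m).support : Set ℝ)
  have hsupp : ∀ i, (supp i).Countable := fun i =>
    countable_iUnion fun m => (Finset.countable_toSet _)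
  have hs : ∀ t : Task, ∃ s : ℝ, ∀ n, e (t, s) ∉ supp (t.1 n) := by
    intro t
    by_contra hcon
    push Not at hcon
    have hc : (⋃ n, supp (t.1 n)).Countable := countable_iUnion fun n => hsupp _
    have hmem : ∀ s : ℝ, e (t, s) ∈ ⋃ n, supp (t.1 n) := fun s => by
      obtain ⟨n, hn⟩ := hcon s
      exact mem_iUnion.mpr ⟨n, hn⟩
    have : (univ : Set ℝ).Countable := by
      refine (hc.preimage_of_injOn (f := fun s : ℝ => e (t, s)) ?_).mono fun s _ => hmem s
      intro s _ s' _ h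
      have := e.injective h
      simpa using this
    exact Cardinal.not_countable_real this
  choose σ hσ using hs
  let κ : Task → ℝ := fun t => e (t, σ t)
  have hκ : Function.Injective κ := fun t t' h => congrArg Prod.fst (e.injective h)
  choose θ hθ using fun i : I => exists_functional i.1 i.2
  let yb : ℝ → Y := fun k => if h : ∃ t, κ t = k then h.choose.2.2 else 0
  let ψ : I → ℝ → ℝ := fun i k => if k ∈ supp i then θ i (Finsupp.single k 1) else
    if h : ∃ p : Task × ℕ, κ p.1 = k ∧ p.1.1 p.2 = i then h.choose.1.2.1 h.choose.2 else 0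
  let J : V →ₗ[ℝ] Y × (I → ℝ) :=
    Finsupp.linearCombination ℝ (fun k => ((yb k, fun i => ψ i k) : Y × (I → ℝ)))
  have hJ2 : ∀ (v : V) (i : I), (J v).2 i = v.sum fun k a => a * ψ i k := by
    intro v i
    have h1 : J v = v.sum fun k a => a • ((yb k, fun i => ψ i k) : Y × (I → ℝ)) :=
      Finsupp.linearCombination_apply ℝ v
    rw [h1, Finsupp.sum, Finsupp.sum, Prod.snd_sum, Finset.sum_apply]
    rfl
  have hne : Nonempty I := by
    refine ⟨⟨fun n => Finsupp.single (n : ℝ) 1, ?_⟩⟩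
    have h1 := (Finsupp.basisSingleOne (R := ℝ) (ι := ℝ)).linearIndependent
    have h2 := h1.comp (fun n : ℕ => (n : ℝ)) Nat.cast_injective
    simpa [Function.comp_def] using h2
  refine ⟨I, hne, LinearMap.range J, ?_, ?_⟩
  · intro Ψ y c
    let t : Task := (Ψ, fun n => c (Ψ n), y)
    have hJs : J (Finsupp.single (κ t) 1) = (yb (κ t), fun i => ψ i (κ t)) :=
      (Finsupp.linearCombination_single ℝ (1 : ℝ) (κ t)).trans (one_smul _ _)
    refine ⟨J (Finsupp.single (κ t) 1), ⟨_, rfl⟩, ?_, fun n => ?_⟩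
    · rw [hJs]
      simp only [yb]
      have h : ∃ t', κ t' = κ t := ⟨t, rfl⟩
      rw [dif_pos h]
      have h1 : h.choose = t := hκ h.choose_spec
      rw [h1]
    · rw [hJs]
      have hnot : κ t ∉ supp (Ψ n) := hσ t n
      have h : ∃ p : Task × ℕ, κ p.1 = κ t ∧ p.1.1 p.2 = Ψ n := ⟨(t, n), rfl, rfl⟩
      have h0 : ψ (Ψ n) (κ t) = h.choose.1.2.1 h.choose.2 := by
        simp only [ψ]
        rw [if_neg hnot, dif_pos h]
      have h1 : h.choose.1 = t := hκ h.choose_spec.1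
      have h2 := h.choose_spec.2
      change ψ (Ψ n) (κ t) = c (Ψ n)
      rw [h0]
      rw [h1] at h2 ⊢
      change Ψ h.choose.2 = Ψ n at h2
      change c (Ψ h.choose.2) = c (Ψ n)
      rw [h2]
  · intro w hw hli
    choose v hv using hw
    have hvli : LinearIndependent ℝ v := by
      refine LinearIndependent.of_comp J ?_
      have : (J ∘ v) = w := funext hv
      rw [this]
      exact hli
    refine ⟨⟨v, hvli⟩, fun n => ?_⟩
    rw [← hv n, hJ2]
    have h1 : θ ⟨v, hvli⟩ (v n) = n := hθ ⟨v, hvli⟩ n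
    rw [← h1]
    have h2 : v n = (v n).sum fun k a => Finsupp.single k a := (Finsupp.sum_single _).symm
    conv_rhs => rw [h2]
    rw [map_finsuppSum]
    refine Finsupp.sum_congr fun k hk => ?_
    have hk' : k ∈ supp ⟨v, hvli⟩ := mem_iUnion.mpr ⟨n, hk⟩
    simp only [ψ]
    rw [if_pos hk', ← smul_eq_mul, ← map_smul, Finsupp.smul_single_one]

end Pool.Agent.Lib_helper69.Asp
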