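import Mathlib
import Pool.Agent.Lib_helper53.Space
import Pool.Agent.Lib_helper69.AspSpace

open Set Cardinal Filter Topology

namespace Pool.Agent.Lib_helper69.Asp

open Pool.Agent.Lib_helper53

lemma mk_closure_le {X : Type} [TopologicalSpace X] [FrechetUrysohnSpace X] [T2Space X] {S : Set X}
    (hS : #S ≤ 𝔠) : #(closure S) ≤ 𝔠 := by
  have h : ∀ x : closure S, ∃ u : ℕ → S, Tendsto (fun n => (u n : X)) atTop (𝓝 (x : X)) := by
    rintro ⟨x, hx⟩
    obtain ⟨u, hu, hlim⟩ := mem_closure_iff_seq_limit.mp hx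
    exact ⟨fun n => ⟨u n, hu n⟩, hlim⟩
  choose u hu using h
  have hinj : Function.Injective u := by
    intro x y hxy
    apply Subtype.ext
    refine tendsto_nhds_unique (hu x) ?_
    rw [hxy]
    exact hu y
  exact (mk_le_of_injective hinj).trans (mk_seq_le hS)

lemma mk_EE_le (A : Set T) : #(EE A) ≤ 𝔠 := by
  have hT : #T = 𝔠 := by simp
  let g : List Bool ⊕ T → B := Sum.elim chiB rB
  have hE0 : E0 A ≤ LinearMap.range (Finsupp.linearCombination ℝ g) := by
    rw [Finsupp.range_linearCombination]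
    refine Submodule.span_mono ?_
    rintro x (⟨s, rfl⟩ | ⟨a, _, rfl⟩)
    · exact ⟨Sum.inl s, rfl⟩
    · exact ⟨Sum.inr a, rfl⟩
  have hcard : #((List Bool ⊕ T) →₀ ℝ) ≤ 𝔠 := by
    have : Infinite (List Bool ⊕ T) := by infer_instance
    rw [Cardinal.mk_finsupp_of_infinite, mk_sum, lift_id, lift_id, Cardinal.mk_real, hT]
    refine max_le ?_ le_rfl
    have h1 : #(List Bool) ≤ ℵ₀ := mk_le_aleph0
    calc #(List Bool) + 𝔠 ≤ 𝔠 + 𝔠 := add_le_add (h1.trans aleph0_le_continuum) le_rfl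
      _ = 𝔠 := continuum_add_self
  have h0 : #(E0 A : Set B) ≤ 𝔠 := by
    have h1 : (E0 A : Set B) ⊆ range (Finsupp.linearCombination ℝ g) := fun x hx => hE0 hx
    exact (mk_le_mk_of_subset h1).trans (mk_range_le.trans hcard)
  have h2 : #(closure (E0 A : Set B)) ≤ 𝔠 := mk_closure_le h0
  exact h2

end Pool.Agent.Lib_helper69.Asp
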