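import Mathlib
import Pool.Agent.Lib_helper53.Extend
import Pool.Agent.Lib_helper69.AspDefs

open Set Filter Topology

namespace Pool.Agent.Lib_helper69.Asp

variable {X : Type*} [AddCommGroup X] [Module ℝ X] [TopologicalSpace X]
  [IsTopologicalAddGroup X] [ContinuousSMul ℝ X]

/-- a convex function bounded above on an affine subspace through one point is invariant in the
directions of this subspace -/
lemma invariant {D : Set X} {f : X → ℝ} (hD : IsOpen D) (hf : ConvexOn ℝ D f) {x₀ : X} {M : ℝ}
    (N : Submodule ℝ X) (hN : ∀ k ∈ N, x₀ + k ∈ D ∧ f (x₀ + k) ≤ M) :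
    ∀ x ∈ D, ∀ k ∈ N, x + k ∈ D ∧ f (x + k) = f x := by
  -- main estimate
  have key : ∀ x ∈ D, ∃ M' : ℝ, ∀ k ∈ N, x + k ∈ D ∧ f (x + k) ≤ M' := by
    intro x hx
    have hcont : Continuous fun ε : ℝ => x + ε • (x - x₀) := by fun_prop
    have h0 : x + (0 : ℝ) • (x - x₀) ∈ D := by simpa using hx
    have hev : ∀ᶠ ε : ℝ in 𝓝[>] 0, x + ε • (x - x₀) ∈ D :=
      nhdsWithin_le_nhds (hcont.continuousAt.eventually (hD.mem_nhds h0))
    obtain ⟨ε, hεD, hε⟩ := (hev.and self_mem_nhdsWithin).exists
    have hε : 0 < ε := hε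
    refine ⟨(1 / (1 + ε)) * f (x + ε • (x - x₀)) + (ε / (1 + ε)) * M, fun k hk => ?_⟩
    have hk' : ((1 + ε) / ε) • k ∈ N := N.smul_mem _ hk
    obtain ⟨h1, h2⟩ := hN _ hk'
    have e : x + k = (1 / (1 + ε)) • (x + ε • (x - x₀)) +
        (ε / (1 + ε)) • (x₀ + ((1 + ε) / ε) • k) := by
      have e1 : (1 + ε) ≠ 0 := by positivity
      match_scalars <;> field_simp <;> ring
    have ha : (0 : ℝ) ≤ 1 / (1 + ε) := by positivity
    have hb : (0 : ℝ) ≤ ε / (1 + ε) := by positivity
    have hab : 1 / (1 + ε) + ε / (1 + ε) = 1 := by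
      field_simp
    constructor
    · rw [e]
      exact hf.1 hεD h1 ha hb hab
    · rw [e]
      refine (hf.2 hεD h1 ha hb hab).trans ?_
      simp only [smul_eq_mul]
      gcongr
  have hle : ∀ x ∈ D, ∀ k ∈ N, f (x + k) ≤ f x := by
    intro x hx k hk
    obtain ⟨M', hM'⟩ := key x hx
    have hφ : ConvexOn ℝ univ fun t : ℝ => f (x + t • k) := by
      refine ⟨convex_univ, fun s _ t _ a b ha hb hab => ?_⟩
      have e : x + (a • s + b • t) • k = a • (x + s • k) + b • (x + t • k) := by
        have hb' : b = 1 - a := by linarith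
        subst hb'
        simp only [smul_eq_mul]
        module
      show f (x + (a • s + b • t) • k) ≤ a • f (x + s • k) + b • f (x + t • k)
      rw [e]
      exact hf.2 (hM' _ (N.smul_mem s hk)).1 (hM' _ (N.smul_mem t hk)).1 ha hb hab
    have h3 := Pool.Agent.Lib_helper53.const_of_bdd hφ (M := M') fun t =>
      (hM' _ (N.smul_mem t hk)).2
    simpa using h3
  intro x hx k hk
  obtain ⟨M', hM'⟩ := key x hx
  refine ⟨(hM' k hk).1, le_antisymm (hle x hx k hk) ?_⟩
  have h := hle (x + k) (hM' k hk).1 (-k) (N.neg_mem hk)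
  rwa [add_neg_cancel_right] at h

/-- Gateaux differentiability of a convex function gives uniform differentiability on sets which
are, modulo the directions of invariance, bounded and finite-dimensional. -/
lemma frechet_aux {D : Set X} {f : X → ℝ} (hD : IsOpen D) (hf : ConvexOn ℝ D f) {x : X}
    (hx : x ∈ D) {φ : X →L[ℝ] ℝ}
    (hφ : ∀ v, Tendsto (fun t : ℝ => (f (x + t • v) - f x) / t) (𝓝[≠] 0) (𝓝 (φ v)))
    (N : Submodule ℝ X) (hN : ∀ y ∈ D, ∀ k ∈ N, y + k ∈ D ∧ f (y + k) = f y)
    {ι : Type*} [Fintype ι] (u : ι → X) (C : ℝ) (B : Set X)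
    (hB : ∀ v ∈ B, ∃ a : ι → ℝ, (∀ i, |a i| ≤ C) ∧ v - ∑ i, a i • u i ∈ N) :
    TendstoUniformlyOn (fun (t : ℝ) (v : X) => (f (x + t • v) - f x) / t) (fun v => φ v)
      (𝓝[≠] 0) B := by
  classical
  -- the derivative vanishes on `N`
  have hφN : ∀ k ∈ N, φ k = 0 := by
    intro k hk
    refine tendsto_nhds_unique (hφ k) ?_
    refine tendsto_const_nhds.congr fun t => ?_
    rw [(hN x hx (t • k) (N.smul_mem t hk)).2, sub_self, zero_div]
  -- constant
  set K : ℝ := |C| * Fintype.card ι + 1 with hK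
  have hKpos : 0 < K := by positivity
  rw [Metric.tendstoUniformlyOn_iff]
  intro ε hε
  have hε2 : 0 < ε / 2 := half_pos hε
  -- the finitely many directions
  have hdir : ∀ᶠ t : ℝ in 𝓝[≠] 0, ∀ i : ι, ∀ s : Bool,
      |(f (x + t • ((if s then K else -K) • u i)) - f x) / t - φ ((if s then K else -K) • u i)|
        < ε / 2 ∧ x + t • ((if s then K else -K) • u i) ∈ D := by
    rw [eventually_all]
    intro i
    rw [eventually_all]
    intro s
    refine Filter.Eventually.and ?_ ?_
    · have h1 := (hφ ((if s then K else -K) • u i)).eventually (Metric.ball_mem_nhds _ hε2)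
      filter_upwards [h1] with t ht
      rwa [Real.dist_eq] at ht
    · have hcont : Continuous fun t : ℝ => x + t • ((if s then K else -K) • u i) := by fun_prop
      have h0 : x + (0 : ℝ) • ((if s then K else -K) • u i) ∈ D := by simpa using hx
      exact nhdsWithin_le_nhds (hcont.continuousAt.eventually (hD.mem_nhds h0))
  filter_upwards [hdir, self_mem_nhdsWithin] with t ht ht0 v hv
  have ht0 : t ≠ 0 := ht0
  obtain ⟨a, haC, hav⟩ := hB v hv
  set v' : X := ∑ i, a i • u i with hv'
  -- convex combination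
  set l : ι → ℝ := fun i => |a i| / K with hl
  set p : ι → X := fun i => (if decide (0 ≤ a i) then K else -K) • u i with hp
  have hlp : ∀ i, l i • p i = a i • u i := by
    intro i
    simp only [hl, hp, smul_smul]
    congr 1
    by_cases h : 0 ≤ a i
    · rw [decide_eq_true h, if_pos rfl, abs_of_nonneg h]
      field_simp
    · rw [decide_eq_false h, abs_of_neg (not_le.mp h)]
      simp only [Bool.false_eq_true, if_false]
      field_simp
  have hl0 : ∀ i, 0 ≤ l i := fun i => by positivity
  have hlsum : ∑ i, l i ≤ 1 := by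
    have h1 : ∑ i, l i ≤ ∑ _i : ι, |C| / K := by
      refine Finset.sum_le_sum fun i _ => ?_
      exact div_le_div_of_nonneg_right ((haC i).trans (le_abs_self C)) hKpos.le
    refine h1.trans ?_
    rw [Finset.sum_const, Finset.card_univ, nsmul_eq_mul, mul_div_assoc', div_le_one hKpos, hK]
    linarith [mul_comm (|C|) (Fintype.card ι : ℝ)]
  have hpD : ∀ i, x + t • p i ∈ D := fun i => (ht i _).2
  have hcomb : x + t • v' = (1 - ∑ i, l i) • x + ∑ i, l i • (x + t • p i) := by
    simp only [smul_add, Finset.sum_add_distrib, ← Finset.sum_smul]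
    have h1 : ∑ i, l i • t • p i = t • v' := by
      rw [hv', Finset.smul_sum]
      refine Finset.sum_congr rfl fun i _ => ?_
      rw [smul_comm, hlp]
    rw [h1]
    module
  have hxv' : x + t • v' ∈ D := by
    rw [hcomb]
    have := hf.1.sum_mem (t := (Finset.univ : Finset (Option ι)))
      (w := fun o => o.elim (1 - ∑ i, l i) l) (z := fun o => o.elim x fun i => x + t • p i) ?_ ?_ ?_
    · rw [Fintype.sum_option] at this
      exact this
    · rintro (_ | i) _
      · simpa using hlsum
      · exact hl0 i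
    · rw [Fintype.sum_option]
      simp
    · rintro (_ | i) _
      · exact hx
      · exact hpD i
  have hJ : f (x + t • v') ≤ (1 - ∑ i, l i) * f x + ∑ i, l i * f (x + t • p i) := by
    rw [hcomb]
    exact hf.map_add_sum_le (t := Finset.univ) (fun i _ => hl0 i) (by ring) (fun i _ => hpD i)
      (by linarith) hx
  -- upper bound
  have hupper : f (x + t • v') - f x - t * φ v' ≤ |t| * (ε / 2) := by
    have h1 : φ v' = ∑ i, l i * φ (p i) := by
      rw [hv', map_sum]
      refine Finset.sum_congr rfl fun i _ => ?_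
      rw [← hlp, map_smul, smul_eq_mul]
    have h2 : f (x + t • v') - f x - t * φ v' ≤
        ∑ i, l i * (f (x + t • p i) - f x - t * φ (p i)) := by
      have h3 : ∑ i, l i * (f (x + t • p i) - f x - t * φ (p i)) =
          ∑ i, l i * f (x + t • p i) - (∑ i, l i) * f x - t * ∑ i, l i * φ (p i) := by
        rw [Finset.sum_mul, Finset.mul_sum, ← Finset.sum_sub_distrib, ← Finset.sum_sub_distrib]
        refine Finset.sum_congr rfl fun i _ => ?_
        ring
      rw [h3, h1]
      linarith
    refine h2.trans ?_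
    have h4 : ∀ i, f (x + t • p i) - f x - t * φ (p i) ≤ |t| * (ε / 2) := by
      intro i
      have h5 := (ht i (decide (0 ≤ a i))).1
      have h6 : f (x + t • p i) - f x - t * φ (p i) =
          t * ((f (x + t • p i) - f x) / t - φ (p i)) := by
        field_simp
      rw [h6]
      refine (le_abs_self _).trans ?_
      rw [abs_mul]
      exact mul_le_mul_of_nonneg_left h5.le (abs_nonneg t)
    calc ∑ i, l i * (f (x + t • p i) - f x - t * φ (p i)) ≤ ∑ i, l i * (|t| * (ε / 2)) :=
          Finset.sum_le_sum fun i _ => mul_le_mul_of_nonneg_left (h4 i) (hl0 i)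
      _ = (∑ i, l i) * (|t| * (ε / 2)) := by rw [Finset.sum_mul]
      _ ≤ 1 * (|t| * (ε / 2)) := by gcongr
      _ = |t| * (ε / 2) := one_mul _
  -- lower bound
  have hlower : 0 ≤ f (x + t • v') - f x - t * φ v' := by
    have h1 : Tendsto (fun s : ℝ => (f (x + s • (t • v')) - f x) / s) (𝓝[>] 0)
        (𝓝 (φ (t • v'))) := (hφ (t • v')).mono_left (nhdsWithin_mono _ fun s hs => ne_of_gt hs)
    have h2 : φ (t • v') ≤ f (x + t • v') - f x := by
      refine le_of_tendsto h1 ?_
      have h3 : ∀ᶠ s : ℝ in 𝓝[>] 0, s < 1 :=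
        nhdsWithin_le_nhds (gt_mem_nhds one_pos)
      filter_upwards [h3, self_mem_nhdsWithin] with s hs1 hs0
      have hs0 : 0 < s := hs0
      rw [div_le_iff₀ hs0]
      have e : x + s • (t • v') = (1 - s) • x + s • (x + t • v') := by module
      rw [e]
      have h4 := hf.2 hx hxv' (by linarith : (0 : ℝ) ≤ 1 - s) hs0.le (by ring)
      simp only [smul_eq_mul] at h4
      linarith
    rw [map_smul, smul_eq_mul] at h2
    linarith
  -- conclusion
  have hfv : f (x + t • v) = f (x + t • v') := by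
    have e : x + t • v = x + t • v' + t • (v - v') := by module
    rw [e]
    exact (hN _ hxv' _ (N.smul_mem t hav)).2
  have hφv : φ v = φ v' := by
    have h1 := hφN _ hav
    rw [map_sub] at h1
    linarith
  rw [Real.dist_eq, hfv, hφv, abs_sub_comm]
  have h6 : (f (x + t • v') - f x) / t - φ v' = (f (x + t • v') - f x - t * φ v') / t := by
    field_simp
  rw [h6, abs_div, div_lt_iff₀ (abs_pos.mpr ht0), abs_of_nonneg hlower]
  have h7 : 0 < |t| := abs_pos.mpr ht0
  nlinarith

/-- coordinates on bounded sets with finite-dimensional span -/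
lemma exists_coords [T2Space X] {B : Set X} (hB : Bornology.IsVonNBounded ℝ B)
    [FiniteDimensional ℝ (Submodule.span ℝ B)] :
    ∃ (n : ℕ) (u : Fin n → X) (C : ℝ), ∀ v ∈ B, ∃ a : Fin n → ℝ, (∀ i, |a i| ≤ C) ∧
      v = ∑ i, a i • u i := by
  classical
  set W := Submodule.span ℝ B with hW
  let b := Module.finBasis ℝ W
  set n := Module.finrank ℝ W with hn
  let g : W →ₗ[ℝ] (Fin n → ℝ) := b.equivFun.toLinearMap
  have hg : Continuous g := LinearMap.continuous_of_finiteDimensional g
  let gL : W →L[ℝ] (Fin n → ℝ) := ⟨g, hg⟩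
  let B' : Set W := {w | (w : X) ∈ B}
  have hB' : Bornology.IsVonNBounded ℝ B' := by
    obtain ⟨s, hs⟩ := exists_seq_tendsto (𝓝[≠] (0 : ℝ))
    rw [Bornology.isVonNBounded_iff_smul_tendsto_zero hs]
    intro w hw
    rw [tendsto_subtype_rng]
    exact (Bornology.isVonNBounded_iff_smul_tendsto_zero hs).mp hB (fun n => (w n : X)) hw
  have h1 : Bornology.IsVonNBounded ℝ (gL '' B') := hB'.image gL
  rw [NormedSpace.isVonNBounded_iff, isBounded_iff_forall_norm_le] at h1
  obtain ⟨C, hC⟩ := h1
  refine ⟨n, fun i => (b i : X), C, fun v hv => ?_⟩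
  have hvW : v ∈ W := Submodule.subset_span hv
  refine ⟨g ⟨v, hvW⟩, fun i => ?_, ?_⟩
  · have h2 := hC (gL ⟨v, hvW⟩) ⟨⟨v, hvW⟩, hv, rfl⟩
    have h3 := norm_le_pi_norm (gL ⟨v, hvW⟩) i
    exact h3.trans h2
  · have h2 := b.sum_equivFun ⟨v, hvW⟩
    have h3 := congrArg (fun w : W => (w : X)) h2
    simp only [Submodule.coe_sum, Submodule.coe_smul] at h3
    exact h3.symm

end Pool.Agent.Lib_helper69.Asp
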