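import Mathlib
import Pool.Agent.Lib_helper53.Defs
import Pool.Agent.Lib_helper53.Space
import Pool.Agent.Lib_helper53.NonWA

open Set Filter Topology Metric Cardinal

namespace Pool.Agent.Lib_helper69.Asp

open Pool.Agent.Lib_helper53
open PiNat (res)

/-- The subspace `E` of `Y × ℝ^I` projects onto all countable subproducts. -/
def CtblSurj {Y I : Type} [AddCommGroup Y] [Module ℝ Y] (E : Submodule ℝ (Y × (I → ℝ))) : Prop :=
  ∀ S : Set I, S.Countable → ∀ (y : Y) (c : I → ℝ), ∃ z : E, (z : Y × (I → ℝ)).1 = y ∧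
    ∀ i ∈ S, (z : Y × (I → ℝ)).2 i = c i

section Box

variable {Y I : Type} [NormedAddCommGroup Y] [NormedSpace ℝ Y] {E : Submodule ℝ (Y × (I → ℝ))}

/-- open boxes -/
def box (z : E) (r : ℝ) (Ψ : Finset I) : Set E :=
  {w | dist (w : Y × (I → ℝ)).1 (z : Y × (I → ℝ)).1 < r ∧
    ∀ i ∈ Ψ, |(w : Y × (I → ℝ)).2 i - (z : Y × (I → ℝ)).2 i| < r}

/-- closed boxes -/
def cbox (z : E) (r : ℝ) (Ψ : Finset I) : Set E :=
  {w | dist (w : Y × (I → ℝ)).1 (z : Y × (I → ℝ)).1 ≤ r ∧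
    ∀ i ∈ Ψ, |(w : Y × (I → ℝ)).2 i - (z : Y × (I → ℝ)).2 i| ≤ r}

lemma self_mem_box (z : E) {r : ℝ} (hr : 0 < r) (Ψ : Finset I) : z ∈ box z r Ψ :=
  ⟨by simpa using hr, fun i _ => by simpa using hr⟩

lemma self_mem_cbox (z : E) {r : ℝ} (hr : 0 ≤ r) (Ψ : Finset I) : z ∈ cbox z r Ψ :=
  ⟨by simpa using hr, fun i _ => by simpa using hr⟩

lemma box_subset_cbox (z : E) (r : ℝ) (Ψ : Finset I) : box z r Ψ ⊆ cbox z r Ψ :=
  fun _ h => ⟨h.1.le, fun i hi => (h.2 i hi).le⟩

lemma continuous_c1 : Continuous fun w : E => (w : Y × (I → ℝ)).1 :=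
  continuous_fst.comp continuous_subtype_val

lemma continuous_c2 (i : I) : Continuous fun w : E => (w : Y × (I → ℝ)).2 i :=
  (continuous_apply i).comp (continuous_snd.comp continuous_subtype_val)

lemma isOpen_box (z : E) (r : ℝ) (Ψ : Finset I) : IsOpen (box z r Ψ) := by
  have : box z r Ψ = {w : E | dist (w : Y × (I → ℝ)).1 (z : Y × (I → ℝ)).1 < r} ∩
      ⋂ i ∈ Ψ, {w : E | |(w : Y × (I → ℝ)).2 i - (z : Y × (I → ℝ)).2 i| < r} := by
    ext w
    simp [box]
  rw [this]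
  refine IsOpen.inter ?_ (isOpen_biInter_finset fun i _ => ?_)
  · exact isOpen_lt (continuous_c1.dist continuous_const) continuous_const
  · exact isOpen_lt ((continuous_c2 i).sub continuous_const).abs continuous_const

/-- boxes form a basis of neighbourhoods -/
lemma exists_box_subset (z : E) {U : Set E} (hU : U ∈ 𝓝 z) :
    ∃ (r : ℝ) (Ψ : Finset I), 0 < r ∧ box z r Ψ ⊆ U := by
  classical
  rw [nhds_subtype_eq_comap, Filter.mem_comap] at hU
  obtain ⟨U', hU', hsub⟩ := hU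
  rw [nhds_prod_eq, Filter.mem_prod_iff] at hU'
  obtain ⟨u, hu, v, hv, huv⟩ := hU'
  obtain ⟨r₀, hr₀, hball⟩ := Metric.mem_nhds_iff.mp hu
  rw [nhds_pi, Filter.mem_pi] at hv
  obtain ⟨J, hJ, t, ht, hJt⟩ := hv
  choose ρ hρ hρt using fun i => Metric.mem_nhds_iff.mp (ht i)
  have hmin : ∃ r > 0, r ≤ r₀ ∧ ∀ i ∈ hJ.toFinset, r ≤ ρ i := by
    have key : ∀ Ψ : Finset I, ∃ r > 0, r ≤ r₀ ∧ ∀ i ∈ Ψ, r ≤ ρ i := by
      intro Ψ
      induction Ψ using Finset.induction_on with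
      | empty => exact ⟨r₀, hr₀, le_rfl, by simp⟩
      | insert i Ψ _ ih =>
        obtain ⟨r, hr, h1, h2⟩ := ih
        refine ⟨min r (ρ i), lt_min hr (hρ i), (min_le_left _ _).trans h1, fun j hj => ?_⟩
        rcases Finset.mem_insert.mp hj with rfl | hj
        · exact min_le_right _ _
        · exact (min_le_left _ _).trans (h2 j hj)
    exact key _
  obtain ⟨r, hr, h1, h2⟩ := hmin
  refine ⟨r, hJ.toFinset, hr, fun w hw => hsub ?_⟩
  refine huv ⟨hball (hw.1.trans_le h1), hJt fun i hi => hρt i ?_⟩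
  rw [mem_ball, Real.dist_eq]
  exact (hw.2 i (hJ.mem_toFinset.mpr hi)).trans_le (h2 i (hJ.mem_toFinset.mpr hi))

/-- nested boxes have a common point -/
lemma exists_limit [CompleteSpace Y] (hE : CtblSurj E) (z : ℕ → E) (r : ℕ → ℝ)
    (Ψ : ℕ → Finset I) (hΨ : Monotone Ψ) (hr : Tendsto r atTop (𝓝 0))
    (hz : ∀ n m, n ≤ m → z m ∈ cbox (z n) (r n) (Ψ n)) :
    ∃ w : E, ∀ n, w ∈ cbox (z n) (r n) (Ψ n) := by
  -- the first component
  have h1 : CauchySeq fun n => (z n : Y × (I → ℝ)).1 := by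
    refine cauchySeq_of_le_tendsto_0' r (fun n m hnm => ?_) hr
    rw [dist_comm]
    exact (hz n m hnm).1
  obtain ⟨y, hy⟩ := cauchySeq_tendsto_of_complete h1
  -- the other components
  have h2 : ∀ i, ∃ c : ℝ, (∃ n, i ∈ Ψ n) →
      Tendsto (fun n => (z n : Y × (I → ℝ)).2 i) atTop (𝓝 c) := by
    intro i
    by_cases hi : ∃ n, i ∈ Ψ n
    · obtain ⟨k, hk⟩ := hi
      have h3 : CauchySeq fun n => (z (n + k) : Y × (I → ℝ)).2 i := by
        refine cauchySeq_of_le_tendsto_0' (fun n => r (n + k)) (fun n m hnm => ?_)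
          ((tendsto_add_atTop_iff_nat k).mpr hr)
        rw [dist_comm, Real.dist_eq]
        exact (hz (n + k) (m + k) (by omega)).2 i (hΨ (by omega : k ≤ n + k) hk)
      obtain ⟨c, hc⟩ := cauchySeq_tendsto_of_complete h3
      exact ⟨c, fun _ => (tendsto_add_atTop_iff_nat (f := fun n => (z n : Y × (I → ℝ)).2 i) k).mp hc⟩
    · exact ⟨0, fun h => absurd h hi⟩
  choose c hc using h2
  have hcount : (⋃ n, (Ψ n : Set I)).Countable :=
    countable_iUnion fun n => (Ψ n).countable_toSet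
  obtain ⟨w, hw1, hw2⟩ := hE _ hcount y c
  refine ⟨w, fun n => ⟨?_, fun i hi => ?_⟩⟩
  · rw [hw1]
    refine le_of_tendsto (hy.dist tendsto_const_nhds) ?_
    filter_upwards [eventually_ge_atTop n] with m hm
    exact (hz n m hm).1
  · rw [hw2 i (mem_iUnion.mpr ⟨n, hi⟩)]
    refine le_of_tendsto (((hc i ⟨n, hi⟩).sub tendsto_const_nhds).abs) ?_
    filter_upwards [eventually_ge_atTop n] with m hm
    exact (hz n m hm).2 i hi

end Box

variable {A : Set T} {I : Type} {E : Submodule ℝ (EE A × (I → ℝ))}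

/-- first component -/
abbrev pr1 (z : E) : EE A := (z : EE A × (I → ℝ)).1

/-- the data at a node of the scheme -/
structure NdE (E : Submodule ℝ (EE A × (I → ℝ))) where
  z : E
  r : ℝ
  s : List Bool
  Ψ : Finset I
  hx : (pr1 z : B) ∈ E0 A
  hr : 0 < r
  hmax : ∀ t ∈ cyl s, ∀ t', (pr1 z : B) t' ≤ (pr1 z : B) t

lemma ndE_step (hE : CtblSurj E) (U : Set E) (hU : IsOpen U) (hUd : Dense U) (N : NdE E) (n : ℕ)
    (b : Bool) :
    ∃ M : NdE E, cbox M.z M.r M.Ψ ⊆ box N.z N.r N.Ψ ∩ U ∧ M.r ≤ (1 / 2) ^ n ∧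
      cyl M.s ⊆ cyl (b :: N.s) ∧ N.Ψ ⊆ M.Ψ := by
  classical
  have hρ : 0 < N.r / 2 := half_pos N.hr
  set ρ := N.r / 2 with hρdef
  set x₁ : EE A := pr1 N.z + ρ • chiE A (b :: N.s) with hx₁
  obtain ⟨z₁, hz₁, hz₁'⟩ := hE (N.Ψ : Set I) N.Ψ.countable_toSet x₁ (N.z : EE A × (I → ℝ)).2
  -- a point of `U` close to `z₁`
  have hopen : IsOpen (box z₁ (ρ / 4) N.Ψ) := isOpen_box _ _ _
  obtain ⟨z₂, hz₂b, hz₂U⟩ := hUd.inter_open_nonempty _ hopen
    ⟨z₁, self_mem_box z₁ (show (0 : ℝ) < ρ / 4 by positivity) _⟩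
  obtain ⟨δ, Ψ', hδ, hbox⟩ := exists_box_subset z₂
    ((hopen.inter hU).mem_nhds ⟨hz₂b, hz₂U⟩)
  -- a point with first component in `E0`
  obtain ⟨y, hyb, hy0⟩ := (dense_E0 A).inter_open_nonempty _ isOpen_ball
    ⟨pr1 z₂, mem_ball_self hδ⟩
  obtain ⟨w, hw, hw'⟩ := hE (Ψ' : Set I) Ψ'.countable_toSet y (z₂ : EE A × (I → ℝ)).2
  have hwbox : w ∈ box z₂ δ Ψ' := by
    refine ⟨?_, fun i hi => ?_⟩
    · rw [hw]; exact hyb
    · rw [hw' i hi]; simpa using hδ
  obtain ⟨hwb, hwU⟩ := hbox hwbox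
  have hwpr : pr1 w = y := hw
  have hy0' : (y : B) ∈ E0 A := hy0
  obtain ⟨a, m, hconst, hmax⟩ := exists_max hy0'
  have hdist : ∀ t, |(y : B) t - (x₁ : B) t| < ρ / 4 := by
    intro t
    have h1 := hwb.1
    rw [hw, hz₁, dist_eq_norm] at h1
    refine lt_of_le_of_lt ?_ h1
    exact abs_apply_le ((y : B) - (x₁ : B)) t
  have hx₁val : ∀ t, (x₁ : B) t = (pr1 N.z : B) t + ρ * chiB (b :: N.s) t := fun t => rfl
  -- `a` belongs to the child cylinder
  have ha : a ∈ cyl (b :: N.s) := by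
    by_contra hcon
    obtain ⟨t₁, ht₁⟩ := cyl_nonempty (b :: N.s)
    have e1 := hdist t₁
    have e2 := hdist a
    rw [hx₁val, chiB_apply] at e1 e2
    rw [if_pos ht₁] at e1
    rw [if_neg hcon] at e2
    have e3 := N.hmax t₁ (mem_cyl_cons.mp ht₁).2 a
    have e4 := hmax t₁
    rw [abs_lt] at e1 e2
    linarith [e1.1, e2.2]
  have hwN : w ∈ box N.z N.r N.Ψ := by
    refine ⟨?_, fun i hi => ?_⟩
    · have h0 := hwb.1
      rw [hz₁] at h0
      have h1 : dist x₁ (pr1 N.z) ≤ ρ := by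
        rw [hx₁, dist_eq_norm, add_sub_cancel_left, norm_smul, Real.norm_eq_abs, abs_of_pos hρ]
        have : ‖chiE A (b :: N.s)‖ ≤ 1 := norm_chiB_le _
        nlinarith
      have h2 := dist_triangle (w : EE A × (I → ℝ)).1 x₁ (pr1 N.z)
      linarith
    · have h1 := hwb.2 i hi
      rw [hz₁' i hi] at h1
      linarith
  obtain ⟨r', Ψ'', hr', hsub⟩ := exists_box_subset w
    (((isOpen_box N.z N.r N.Ψ).inter hU).mem_nhds ⟨hwN, hwU⟩)
  have hlen : (res a (max m (N.s.length + 1))).length = max m (N.s.length + 1) :=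
    PiNat.res_length _ _
  refine ⟨⟨w, min (r' / 2) ((1 / 2) ^ n), res a (max m (N.s.length + 1)), N.Ψ ∪ Ψ'', ?_,
    lt_min (half_pos hr') (by positivity), ?_⟩, ?_, ?_, ?_, ?_⟩
  · rw [hwpr]; exact hy0'
  · intro t ht t'
    rw [hwpr]
    rw [mem_cyl_res] at ht
    rw [hconst t (res_eq_mono ht (le_max_left _ _))]
    exact hmax t'
  · intro v hv
    refine hsub ⟨?_, fun i hi => ?_⟩
    · have := hv.1
      simp only at this
      have h2 := min_le_left (r' / 2) ((1 / 2 : ℝ) ^ n)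
      linarith
    · have := hv.2 i (Finset.mem_union_right _ hi)
      simp only at this
      have h2 := min_le_left (r' / 2) ((1 / 2 : ℝ) ^ n)
      linarith
  · exact min_le_right _ _
  · have h1 : cyl (b :: N.s) = cyl (res a (N.s.length + 1)) := by
      rw [cyl_eq_of_mem ha]
      simp
    rw [h1]
    exact cyl_res_anti a (le_max_right _ _)
  · exact Finset.subset_union_left

/-- the function `z ↦ sup (first component of z)` -/
noncomputable def fE (E : Submodule ℝ (EE A × (I → ℝ))) : E → ℝ := fun z => supF (pr1 z : B)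

theorem not_weakAsplundE (hA : Prop1 A) (hE : CtblSurj E) : ¬ IsWeakAsplund E := by
  intro hWA
  have hconv : ConvexOn ℝ univ (fE E) := by
    refine ⟨convex_univ, fun x _ y _ a b ha hb hab => ?_⟩
    exact (convexOn_supF A).2 (mem_univ (pr1 x)) (mem_univ (pr1 y)) ha hb hab
  have hcont : Continuous (fE E) := (continuous_supF A).comp continuous_c1
  obtain ⟨G, -, hGδ, hGd, hGdiff⟩ := hWA univ (fE E) univ_nonempty isOpen_univ
    hconv hcont.continuousOn
  obtain ⟨U, hU, rfl⟩ := isGδ_iff_eq_iInter_nat.mp hGδ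
  have hUd : ∀ n, Dense (U n) := by
    intro n
    have : Dense (⋂ n, U n) := fun x => hGd (mem_univ x)
    exact this.mono (iInter_subset _ n)
  choose child hc1 hc2 hc3 hc4 using fun (N : NdE E) (n : ℕ) (b : Bool) =>
    ndE_step hE (U n) (hU n) (hUd n) N n b
  let N₀ : NdE E := ⟨0, 1, [], ∅, Submodule.zero_mem _, one_pos, fun t _ t' => le_rfl⟩
  let nd : List Bool → NdE E := fun l => List.rec N₀ (fun b l ih => child ih l.length b) l
  have nd_cons : ∀ b l, nd (b :: l) = child (nd l) l.length b := fun b l => rfl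
  have hrle : ∀ (τ : T) (n : ℕ), (nd (res τ (n + 1))).r ≤ (1 / 2) ^ n := by
    intro τ n
    rw [PiNat.res_succ, nd_cons]
    have := hc2 (nd (res τ n)) (res τ n).length (τ n)
    rwa [PiNat.res_length] at this ⊢
  have hrtends : ∀ τ : T, Tendsto (fun n => (nd (res τ n)).r) atTop (𝓝 0) := by
    intro τ
    rw [← tendsto_add_atTop_iff_nat 1]
    refine squeeze_zero (fun n => (nd (res τ (n + 1))).hr.le) (hrle τ) ?_
    exact tendsto_pow_atTop_nhds_zero_of_lt_one (by norm_num) (by norm_num)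
  have hstep : ∀ (τ : T) (n : ℕ), cbox (nd (res τ (n + 1))).z (nd (res τ (n + 1))).r
      (nd (res τ (n + 1))).Ψ ⊆ box (nd (res τ n)).z (nd (res τ n)).r (nd (res τ n)).Ψ := by
    intro τ n
    rw [PiNat.res_succ, nd_cons]
    exact (hc1 _ _ _).trans inter_subset_left
  have hanti : ∀ (τ : T) (n m : ℕ), n ≤ m → cbox (nd (res τ m)).z (nd (res τ m)).r
      (nd (res τ m)).Ψ ⊆ cbox (nd (res τ n)).z (nd (res τ n)).r (nd (res τ n)).Ψ := by
    intro τ n m hnm
    induction m, hnm using Nat.le_induction with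
    | base => exact subset_rfl
    | succ m _ ih => exact ((hstep τ m).trans (box_subset_cbox _ _ _)).trans ih
  have hΨmono : ∀ τ : T, Monotone fun n => (nd (res τ n)).Ψ := by
    intro τ
    refine monotone_nat_of_le_succ fun n => ?_
    rw [PiNat.res_succ, nd_cons]
    exact hc4 _ _ _
  -- the limit points
  have hpt : ∀ τ : T, ∃ x : E, ∀ n, x ∈ cbox (nd (res τ n)).z (nd (res τ n)).r
      (nd (res τ n)).Ψ := by
    intro τ
    refine exists_limit hE _ _ _ (hΨmono τ) (hrtends τ) fun n m hnm => ?_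
    exact hanti τ n m hnm (self_mem_cbox _ (nd (res τ m)).hr.le _)
  choose X hX using hpt
  -- cylinders shrink
  have hcylanti : ∀ (τ : T) (n : ℕ), cyl (nd (res τ (n + 1))).s ⊆ cyl (τ n :: (nd (res τ n)).s) := by
    intro τ n
    rw [PiNat.res_succ, nd_cons]
    exact hc3 _ _ _
  have hcylne : ∀ τ : T, (⋂ n, cyl (nd (res τ n)).s).Nonempty := by
    intro τ
    refine IsCompact.nonempty_iInter_of_sequence_nonempty_isCompact_isClosed _ (fun n => ?_)
      (fun n => cyl_nonempty _) ((isClosed_cyl _).isCompact) (fun n => isClosed_cyl _)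
    exact (hcylanti τ n).trans fun t ht => (mem_cyl_cons.mp ht).2
  choose a ha using hcylne
  have ha' : ∀ τ n, a τ ∈ cyl (nd (res τ n)).s := fun τ n => mem_iInter.mp (ha τ) n
  have hainj : Function.Injective a := by
    intro τ τ' h
    apply PiNat.res_injective
    ext n : 1
    induction n with
    | zero => rfl
    | succ n ih =>
      have h1 := (mem_cyl_cons.mp (hcylanti τ n (ha' τ (n + 1)))).1
      have h2 := (mem_cyl_cons.mp (hcylanti τ' n (ha' τ' (n + 1)))).1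
      rw [PiNat.res_succ, PiNat.res_succ, ih, ← h1, ← h2, h, ih]
  have hcard : 𝔠 ≤ #{b : T | ∃ τ : T, ∀ n, b ∈ cyl ((fun l => (nd l).s) (res τ n))} := by
    have h1 : #T = 𝔠 := by simp
    rw [← h1]
    exact mk_le_of_injective (f := fun τ => (⟨a τ, τ, ha' τ⟩ :
      {b : T | ∃ τ : T, ∀ n, b ∈ cyl ((fun l => (nd l).s) (res τ n))}))
      fun τ τ' h => hainj (congrArg Subtype.val h)
  obtain ⟨b, hbA, τ, hb⟩ := hA (fun l => (nd l).s) hcard
  -- the point `X τ`
  have hXU : X τ ∈ ⋂ n, U n := by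
    rw [mem_iInter]
    intro n
    have h1 := hX τ (n + 1)
    rw [PiNat.res_succ, nd_cons] at h1
    have h2 := hc1 _ _ _ h1
    have h3 := h2.2
    rwa [PiNat.res_length] at h3
  obtain ⟨φ, hφ⟩ := hGdiff (X τ) hXU
  set Xτ : EE A := pr1 (X τ) with hXτ
  have hnear : ∀ ε > 0, ∃ m, ∀ t, res t m = res b m → supF (Xτ : B) - ε ≤ (Xτ : B) t := by
    intro ε hε
    obtain ⟨n, hn⟩ := ((hrtends τ).eventually (gt_mem_nhds (half_pos hε))).exists
    refine ⟨(nd (res τ n)).s.length, fun t ht => ?_⟩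
    have hbn := hb n
    have htc : t ∈ cyl (nd (res τ n)).s := by
      rw [mem_cyl] at hbn ⊢
      rw [ht, hbn]
    have hd := (hX τ n).1
    rw [dist_eq_norm] at hd
    have hpt : ∀ t', |(Xτ : B) t' - ((pr1 (nd (res τ n)).z : EE A) : B) t'| ≤ (nd (res τ n)).r :=
      fun t' => (abs_apply_le ((Xτ : B) - ((pr1 (nd (res τ n)).z : EE A) : B)) t').trans hd
    have h1 : supF (Xτ : B) ≤ ((pr1 (nd (res τ n)).z : EE A) : B) t + (nd (res τ n)).r := by
      refine supF_le fun t' => ?_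
      have h2 := (abs_le.mp (hpt t')).2
      have h3 := (nd (res τ n)).hmax t htc t'
      linarith
    have h4 := (abs_le.mp (hpt t)).1
    linarith
  obtain ⟨v, hv, -⟩ := hE ∅ countable_empty (rE hbA) 0
  have hlim := hφ v
  have hval : ∀ t : ℝ, fE E (X τ) + |t| ≤ fE E (X τ + t • v) := by
    intro t
    have h1 := supF_add_ge hnear t
    have h2 : ((pr1 (X τ + t • v) : EE A) : B) = (Xτ : B) + t • rB b := by
      have h3 : pr1 (X τ + t • v) = Xτ + t • (v : EE A × (I → ℝ)).1 := rfl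
      rw [h3, hv]
      rfl
    unfold fE
    rw [h2]
    exact h1
  have hpos : (1 : ℝ) ≤ φ v := by
    have h1 : Tendsto (fun t : ℝ => (fE E (X τ + t • v) - fE E (X τ)) / t)
        (𝓝[>] 0) (𝓝 (φ v)) := hlim.mono_left (nhdsWithin_mono _ fun t ht => ne_of_gt ht)
    refine ge_of_tendsto h1 ?_
    filter_upwards [self_mem_nhdsWithin] with t ht
    rw [le_div_iff₀ ht]
    have := hval t
    rw [abs_of_pos ht] at this
    linarith
  have hneg : φ v ≤ -1 := by
    have h1 : Tendsto (fun t : ℝ => (fE E (X τ + t • v) - fE E (X τ)) / t)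
        (𝓝[<] 0) (𝓝 (φ v)) := hlim.mono_left (nhdsWithin_mono _ fun t ht => ne_of_lt ht)
    refine le_of_tendsto h1 ?_
    filter_upwards [self_mem_nhdsWithin] with t ht
    have ht' : t < 0 := ht
    rw [div_le_iff_of_neg ht']
    have := hval t
    rw [abs_of_neg ht'] at this
    linarith
  linarith

end Pool.Agent.Lib_helper69.Asp
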