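import Mathlib
import Pool.Agent.Lib_helper53.Product
import Pool.Agent.Lib_helper69.AspDefs
import Pool.Agent.Lib_helper69.AspGen
import Pool.Agent.Lib_helper69.AspNon

open Set Filter Topology Metric

namespace Pool.Agent.Lib_helper69.Asp

open Pool.Agent.Lib_helper53 (FF unitF unitF_self exists_box ext_FF)

variable {Y I : Type} [NormedAddCommGroup Y] [NormedSpace ℝ Y] {E : Submodule ℝ (Y × (I → ℝ))}

/-- every linearly independent sequence in `E` is unbounded in some coordinate -/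
def FinBdd (E : Submodule ℝ (Y × (I → ℝ))) : Prop :=
  ∀ w : ℕ → E, LinearIndependent ℝ w → ∃ i, ∀ n : ℕ, (w n : Y × (I → ℝ)).2 i = n

/-- continuous coordinate functional -/
noncomputable def coordE (E : Submodule ℝ (Y × (I → ℝ))) (i : I) : E →L[ℝ] ℝ where
  toFun z := (z : Y × (I → ℝ)).2 i
  map_add' _ _ := rfl
  map_smul' _ _ := rfl
  cont := continuous_c2 i

lemma finite_span (hE : FinBdd E) {B : Set E} (hB : Bornology.IsVonNBounded ℝ B) :
    FiniteDimensional ℝ (Submodule.span ℝ B) := by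
  obtain ⟨b, hbB, hspan, hli⟩ := exists_linearIndependent ℝ B
  rw [← hspan]
  by_cases hfin : b.Finite
  · exact FiniteDimensional.span_of_finite ℝ hfin
  · exfalso
    have hinf : b.Infinite := hfin
    let e := hinf.natEmbedding
    have hw : LinearIndependent ℝ fun n : ℕ => ((e n : b) : E) := hli.comp e e.injective
    obtain ⟨i, hi⟩ := hE _ hw
    have h1 := hB.image (coordE E i)
    rw [NormedSpace.isVonNBounded_iff, isBounded_iff_forall_norm_le] at h1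
    obtain ⟨C, hC⟩ := h1
    obtain ⟨n, hn⟩ := exists_nat_gt C
    have h2 := hC (coordE E i ((e n : b) : E)) ⟨_, hbB (e n).2, rfl⟩
    have h3 : coordE E i ((e n : b) : E) = n := hi n
    rw [h3, Real.norm_eq_abs, Nat.abs_cast] at h2
    linarith

/-- the combined sequence -/
noncomputable def seqQ (Ψ : Finset I) (c : I → ℝ) (w : ℕ → ℝ) : ℕ → ℝ := fun i =>
  if h : i < Ψ.card then c ((Ψ.equivFin.symm ⟨i, h⟩ : Ψ) : I) else w (i - Ψ.card)

lemma seqQ_lt (Ψ : Finset I) (c : I → ℝ) (w : ℕ → ℝ) {i : ℕ} (h : i < Ψ.card) :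
    seqQ Ψ c w i = c ((Ψ.equivFin.symm ⟨i, h⟩ : Ψ) : I) := dif_pos h

lemma seqQ_add (Ψ : Finset I) (c : I → ℝ) (w : ℕ → ℝ) (i : ℕ) :
    seqQ Ψ c w (Ψ.card + i) = w i := by
  unfold seqQ
  rw [dif_neg (by omega)]
  congr 1
  omega

lemma seqQ_mem (Ψ : Finset I) (c : I → ℝ) (w : ℕ → ℝ) {i : I} (hi : i ∈ Ψ) :
    seqQ Ψ c w (Ψ.equivFin ⟨i, hi⟩ : Fin Ψ.card) = c i := by
  rw [seqQ_lt Ψ c w (Fin.is_lt _)]
  simp

/-- the projection `E × F → Y × F` remembering the coordinates in `Ψ` -/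
noncomputable def Qmap (E : Submodule ℝ (Y × (I → ℝ))) (Ψ : Finset I) : E × FF →L[ℝ] Y × FF where
  toFun p := ((p.1 : Y × (I → ℝ)).1, ⟨seqQ Ψ (p.1 : Y × (I → ℝ)).2 (p.2 : ℕ → ℝ), by
    obtain ⟨n, hn⟩ := p.2.2
    refine ⟨Ψ.card + n, fun i hi => ?_⟩
    obtain ⟨j, rfl⟩ := Nat.exists_eq_add_of_le ((Nat.le_add_right _ _).trans hi)
    rw [seqQ_add]
    exact hn j (by omega)⟩)
  map_add' p q := by
    refine Prod.ext rfl (ext_FF fun i => ?_)
    change seqQ Ψ _ _ i = seqQ Ψ _ _ i + seqQ Ψ _ _ i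
    unfold seqQ
    split_ifs <;> rfl
  map_smul' c p := by
    refine Prod.ext rfl (ext_FF fun i => ?_)
    change seqQ Ψ _ _ i = c * seqQ Ψ _ _ i
    unfold seqQ
    split_ifs <;> rfl
  cont := by
    refine Continuous.prodMk (continuous_c1.comp continuous_fst) ?_
    refine Continuous.subtype_mk (continuous_pi fun i => ?_) _
    by_cases h : i < Ψ.card
    · simp only [seqQ_lt _ _ _ h]
      exact (continuous_c2 _).comp continuous_fst
    · have : ∀ p : E × FF, seqQ Ψ (p.1 : Y × (I → ℝ)).2 (p.2 : ℕ → ℝ) i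
          = (p.2 : ℕ → ℝ) (i - Ψ.card) := fun p => dif_neg h
      simp only [this]
      exact (continuous_apply _).comp (continuous_subtype_val.comp continuous_snd)

lemma Qmap_fst (Ψ : Finset I) (p : E × FF) : (Qmap E Ψ p).1 = (p.1 : Y × (I → ℝ)).1 := rfl

lemma Qmap_snd (Ψ : Finset I) (p : E × FF) :
    ((Qmap E Ψ p).2 : ℕ → ℝ) = seqQ Ψ (p.1 : Y × (I → ℝ)).2 (p.2 : ℕ → ℝ) := rfl

/-- neighbourhoods in the product -/
lemma exists_boxX (x : E × FF) {O : Set (E × FF)} (hO : O ∈ 𝓝 x) :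
    ∃ (r : ℝ) (Ψ : Finset I) (n : ℕ), 0 < r ∧ ∀ y : E × FF, y.1 ∈ box x.1 r Ψ →
      (∀ i < n, |(y.2 : ℕ → ℝ) i - (x.2 : ℕ → ℝ) i| < r) → y ∈ O := by
  rw [nhds_prod_eq, Filter.mem_prod_iff] at hO
  obtain ⟨u, hu, v, hv, huv⟩ := hO
  obtain ⟨r₁, Ψ, hr₁, h1⟩ := exists_box_subset x.1 hu
  rw [nhds_subtype_eq_comap, mem_comap] at hv
  obtain ⟨v', hv', hvv⟩ := hv
  obtain ⟨n, r₂, hr₂, h2⟩ := exists_box _ hv'
  refine ⟨min r₁ r₂, Ψ, n, lt_min hr₁ hr₂, fun q hq1 hq2 => huv ⟨h1 ⟨?_, fun i hi => ?_⟩, hvv ?_⟩⟩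
  · exact hq1.1.trans_le (min_le_left _ _)
  · exact (hq1.2 i hi).trans_le (min_le_left _ _)
  · exact h2 _ fun i hi => (hq2 i hi).trans_le (min_le_right _ _)

omit [NormedSpace ℝ Y] in
lemma isOpen_boxF (p : Y × FF) (r : ℝ) (k : ℕ) :
    IsOpen {q : Y × FF | dist q.1 p.1 < r ∧ ∀ i < k, |(q.2 : ℕ → ℝ) i - (p.2 : ℕ → ℝ) i| < r} := by
  have : {q : Y × FF | dist q.1 p.1 < r ∧ ∀ i < k, |(q.2 : ℕ → ℝ) i - (p.2 : ℕ → ℝ) i| < r} =
      {q : Y × FF | dist q.1 p.1 < r} ∩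
        ⋂ i ∈ Finset.range k, {q : Y × FF | |(q.2 : ℕ → ℝ) i - (p.2 : ℕ → ℝ) i| < r} := by
    ext q
    simp
  rw [this]
  refine IsOpen.inter ?_ (isOpen_biInter_finset fun i _ => ?_)
  · exact isOpen_lt (continuous_fst.dist continuous_const) continuous_const
  · exact isOpen_lt (((continuous_apply i).comp
      (continuous_subtype_val.comp continuous_snd)).sub continuous_const).abs continuous_const

/-- lifting: a point of `Y × F` with prescribed further coordinates -/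
lemma exists_lift (hE : CtblSurj E) (Ψ Ψ' : Finset I) (q : Y × FF) (c : I → ℝ) :
    ∃ x : E × FF, Qmap E Ψ x = q ∧ ∀ i ∈ Ψ', i ∉ Ψ → (x.1 : Y × (I → ℝ)).2 i = c i := by
  classical
  obtain ⟨z, hz1, hz2⟩ := hE ((Ψ ∪ Ψ' : Finset I) : Set I) (Finset.countable_toSet _) q.1
    (fun i => if h : i ∈ Ψ then (q.2 : ℕ → ℝ) (Ψ.equivFin ⟨i, h⟩ : Fin Ψ.card) else c i)
  refine ⟨(z, ⟨fun i => (q.2 : ℕ → ℝ) (Ψ.card + i), ?_⟩), ?_, ?_⟩
  · obtain ⟨n, hn⟩ := q.2.2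
    exact ⟨n, fun i hi => hn _ (by omega)⟩
  · refine Prod.ext hz1 (ext_FF fun i => ?_)
    rw [Qmap_snd]
    by_cases h : i < Ψ.card
    · rw [seqQ_lt _ _ _ h]
      have hmem : ((Ψ.equivFin.symm ⟨i, h⟩ : Ψ) : I) ∈ Ψ := (Ψ.equivFin.symm ⟨i, h⟩).2
      change (z : Y × (I → ℝ)).2 _ = _
      rw [hz2 _ (Finset.mem_coe.mpr (Finset.mem_union_left _ hmem)), dif_pos hmem]
      simp
    · obtain ⟨j, rfl⟩ := Nat.exists_eq_add_of_le (not_lt.mp h)
      rw [seqQ_add]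
  · intro i hi hni
    change (z : Y × (I → ℝ)).2 i = c i
    rw [hz2 i (Finset.mem_coe.mpr (Finset.mem_union_right _ hi)), dif_neg hni]

lemma isOpenMap_Qmap (hE : CtblSurj E) (Ψ : Finset I) : IsOpenMap (Qmap E Ψ) := by
  rw [isOpenMap_iff_nhds_le]
  intro x S hS
  rw [mem_map] at hS
  obtain ⟨r, Ψ', n, hr, hbox⟩ := exists_boxX x hS
  have hmem : {q : Y × FF | dist q.1 (Qmap E Ψ x).1 < r ∧
      ∀ i < Ψ.card + n, |(q.2 : ℕ → ℝ) i - ((Qmap E Ψ x).2 : ℕ → ℝ) i| < r} ∈ 𝓝 (Qmap E Ψ x) :=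
    (isOpen_boxF _ _ _).mem_nhds ⟨by simpa using hr, fun i _ => by simpa using hr⟩
  refine mem_of_superset hmem fun q hq => ?_
  obtain ⟨y, hy, hy'⟩ := exists_lift hE Ψ Ψ' q (x.1 : Y × (I → ℝ)).2
  have h1 : y ∈ Qmap E Ψ ⁻¹' S := by
    refine hbox y ⟨?_, fun i hi => ?_⟩ fun i hi => ?_
    · have := hq.1
      rw [← hy] at this
      exact this
    · by_cases hiΨ : i ∈ Ψ
      · have := hq.2 (Ψ.equivFin ⟨i, hiΨ⟩ : Fin Ψ.card) (by
          have := (Ψ.equivFin ⟨i, hiΨ⟩).is_lt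
          omega)
        rw [← hy, Qmap_snd, Qmap_snd, seqQ_mem, seqQ_mem] at this
        exact this
      · rw [hy' i hi hiΨ]
        simpa using hr
    · have := hq.2 (Ψ.card + i) (by omega)
      rw [← hy, Qmap_snd, Qmap_snd, seqQ_add, seqQ_add] at this
      exact this
  rw [mem_preimage, hy] at h1
  exact h1

lemma surjective_Qmap (hE : CtblSurj E) (Ψ : Finset I) : Function.Surjective (Qmap E Ψ) := by
  intro q
  obtain ⟨x, hx, -⟩ := exists_lift hE Ψ ∅ q 0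
  exact ⟨x, hx⟩

/-- the directions of invariance -/
def NN (E : Submodule ℝ (Y × (I → ℝ))) (Ψ : Finset I) (n : ℕ) : Submodule ℝ (E × FF) where
  carrier := {k | (k.1 : Y × (I → ℝ)).1 = 0 ∧ (∀ i ∈ Ψ, (k.1 : Y × (I → ℝ)).2 i = 0) ∧
    ∀ i < n, (k.2 : ℕ → ℝ) i = 0}
  add_mem' := by
    rintro a b ⟨ha1, ha2, ha3⟩ ⟨hb1, hb2, hb3⟩
    refine ⟨?_, fun i hi => ?_, fun i hi => ?_⟩
    · change (a.1 : Y × (I → ℝ)).1 + (b.1 : Y × (I → ℝ)).1 = 0
      rw [ha1, hb1, add_zero]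
    · change (a.1 : Y × (I → ℝ)).2 i + (b.1 : Y × (I → ℝ)).2 i = 0
      rw [ha2 i hi, hb2 i hi, add_zero]
    · change (a.2 : ℕ → ℝ) i + (b.2 : ℕ → ℝ) i = 0
      rw [ha3 i hi, hb3 i hi, add_zero]
  zero_mem' := ⟨rfl, fun _ _ => rfl, fun _ _ => rfl⟩
  smul_mem' := by
    rintro c a ⟨ha1, ha2, ha3⟩
    refine ⟨?_, fun i hi => ?_, fun i hi => ?_⟩
    · change c • (a.1 : Y × (I → ℝ)).1 = 0
      rw [ha1, smul_zero]
    · change c * (a.1 : Y × (I → ℝ)).2 i = 0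
      rw [ha2 i hi, mul_zero]
    · change c * (a.2 : ℕ → ℝ) i = 0
      rw [ha3 i hi, mul_zero]

lemma mem_NN_of_Qmap (Ψ : Finset I) (n : ℕ) {x y : E × FF} (h : Qmap E Ψ x = Qmap E Ψ y) :
    x - y ∈ NN E Ψ n := by
  have h1 : (x.1 : Y × (I → ℝ)).1 = (y.1 : Y × (I → ℝ)).1 := by
    rw [← Qmap_fst Ψ x, ← Qmap_fst Ψ y, h]
  have h2 : seqQ Ψ (x.1 : Y × (I → ℝ)).2 (x.2 : ℕ → ℝ)
      = seqQ Ψ (y.1 : Y × (I → ℝ)).2 (y.2 : ℕ → ℝ) := by
    rw [← Qmap_snd Ψ x, ← Qmap_snd Ψ y, h]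
  refine ⟨?_, fun i hi => ?_, fun i _ => ?_⟩
  · change (x.1 : Y × (I → ℝ)).1 - (y.1 : Y × (I → ℝ)).1 = 0
    rw [h1, sub_self]
  · change (x.1 : Y × (I → ℝ)).2 i - (y.1 : Y × (I → ℝ)).2 i = 0
    have := congrFun h2 (Ψ.equivFin ⟨i, hi⟩ : Fin Ψ.card)
    rw [seqQ_mem, seqQ_mem] at this
    rw [this, sub_self]
  · change (x.2 : ℕ → ℝ) i - (y.2 : ℕ → ℝ) i = 0
    have := congrFun h2 (Ψ.card + i)
    rw [seqQ_add, seqQ_add] at this
    rw [this, sub_self]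

/-- the projection of `E × F` to the first `n` coordinates of `F` -/
noncomputable def coordsF (E : Submodule ℝ (Y × (I → ℝ))) (n : ℕ) : E × FF →L[ℝ] (Fin n → ℝ) where
  toFun p := fun j => (p.2 : ℕ → ℝ) j
  map_add' _ _ := rfl
  map_smul' _ _ := rfl
  cont := continuous_pi fun _ =>
    (continuous_apply _).comp (continuous_subtype_val.comp continuous_snd)

/-- bounded sets of `E × F` are finite-dimensional modulo the directions of invariance -/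
lemma exists_coordsX (hB : FinBdd E) (Ψ : Finset I) (n : ℕ) {B : Set (E × FF)}
    (hBb : Bornology.IsVonNBounded ℝ B) :
    ∃ (m : ℕ) (u : Fin m ⊕ Fin n → E × FF) (C : ℝ), ∀ v ∈ B, ∃ a : Fin m ⊕ Fin n → ℝ,
      (∀ i, |a i| ≤ C) ∧ v - ∑ i, a i • u i ∈ NN E Ψ n := by
  have h1 : Bornology.IsVonNBounded ℝ (Prod.fst '' B) :=
    hBb.image (ContinuousLinearMap.fst ℝ E FF)
  have : FiniteDimensional ℝ (Submodule.span ℝ (Prod.fst '' B)) := finite_span hB h1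
  obtain ⟨m, u₁, C₁, hu₁⟩ := exists_coords h1
  have h2 := hBb.image (coordsF E n)
  rw [NormedSpace.isVonNBounded_iff, isBounded_iff_forall_norm_le] at h2
  obtain ⟨C₂, hC₂⟩ := h2
  refine ⟨m, Sum.elim (fun i => (u₁ i, 0)) (fun j => (0, unitF j)), max C₁ C₂, fun v hv => ?_⟩
  obtain ⟨a₁, ha₁, hv₁⟩ := hu₁ v.1 ⟨v, hv, rfl⟩
  refine ⟨Sum.elim a₁ (fun j => (v.2 : ℕ → ℝ) j), ?_, ?_⟩
  · rintro (i | j)
    · exact (ha₁ i).trans (le_max_left _ _)
    · refine le_trans ?_ (le_max_right _ _)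
      exact (norm_le_pi_norm (coordsF E n v) j).trans (hC₂ _ ⟨v, hv, rfl⟩)
  · have hfst : (v - ∑ i, (Sum.elim a₁ (fun j : Fin n => (v.2 : ℕ → ℝ) j) i) •
        (Sum.elim (fun i => (u₁ i, 0)) (fun j : Fin n => (0, unitF j)) i : E × FF)).1 = 0 := by
      rw [Fintype.sum_sum_type]
      simp only [Sum.elim_inl, Sum.elim_inr, Prod.fst_sub, Prod.fst_add, Prod.fst_sum,
        Prod.smul_fst, smul_zero, Finset.sum_const_zero, add_zero]
      rw [← hv₁, sub_self]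
    have hsnd : ∀ k < n, ((v - ∑ i, (Sum.elim a₁ (fun j : Fin n => (v.2 : ℕ → ℝ) j) i) •
        (Sum.elim (fun i => (u₁ i, 0)) (fun j : Fin n => (0, unitF j)) i : E × FF)).2 : ℕ → ℝ) k
          = 0 := by
      intro k hk
      rw [Fintype.sum_sum_type]
      simp only [Sum.elim_inl, Sum.elim_inr, Prod.snd_sub, Prod.snd_add, Prod.snd_sum,
        Prod.smul_snd, smul_zero, Finset.sum_const_zero, zero_add]
      rw [Submodule.coe_sub, Submodule.coe_sum, Pi.sub_apply, Finset.sum_apply,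
        Finset.sum_eq_single (⟨k, hk⟩ : Fin n)]
      · rw [Submodule.coe_smul, Pi.smul_apply, smul_eq_mul]
        change (v.2 : ℕ → ℝ) k - (v.2 : ℕ → ℝ) k * (unitF k : ℕ → ℝ) k = 0
        rw [unitF_self, mul_one, sub_self]
      · intro j _ hj
        rw [Submodule.coe_smul, Pi.smul_apply, smul_eq_mul]
        have : (unitF (j : ℕ) : ℕ → ℝ) k = 0 := by
          change (Pi.single (j : ℕ) (1 : ℝ) : ℕ → ℝ) k = 0
          rw [Pi.single_apply, if_neg]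
          intro h
          exact hj (Fin.ext h.symm)
        rw [this, mul_zero]
      · intro h
        exact absurd (Finset.mem_univ _) h
    refine ⟨?_, fun i _ => ?_, hsnd⟩
    · rw [hfst]; rfl
    · rw [hfst]; rfl

/-- **Main transfer theorem.** -/
theorem asplund_prod (hE : CtblSurj E) (hB : FinBdd E)
    (hW : ∀ (D : Set (Y × FF)) (f : Y × FF → ℝ), D.Nonempty → IsOpen D → ConvexOn ℝ D f →
      ContinuousOn f D → ∃ G : Set (Y × FF), G ⊆ D ∧ IsGδ G ∧ D ⊆ closure G ∧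
        ∀ x ∈ G, GateauxDiffAt f x) : IsAsplund (E × FF) := by
  rintro D f ⟨x₀, hx₀⟩ hD hf hc
  -- a box on which `f` is bounded above
  have hnb : {q | q ∈ D ∧ f q ≤ f x₀ + 1} ∈ 𝓝 x₀ := by
    have h1 := (hc.continuousAt (hD.mem_nhds hx₀)).eventually
      (gt_mem_nhds (lt_add_one (f x₀)))
    filter_upwards [h1, hD.mem_nhds hx₀] with q hq hqD
    exact ⟨hqD, hq.le⟩
  obtain ⟨r, Ψ, n, hr, hbox⟩ := exists_boxX x₀ hnb
  have hinv := invariant hD hf (x₀ := x₀) (M := f x₀ + 1) (NN E Ψ n) (by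
    rintro k ⟨hk1, hk2, hk3⟩
    refine hbox _ ⟨?_, fun i hi => ?_⟩ fun i hi => ?_
    · change dist ((x₀.1 : Y × (I → ℝ)).1 + (k.1 : Y × (I → ℝ)).1) _ < r
      rw [hk1, add_zero, dist_self]
      exact hr
    · change |(x₀.1 : Y × (I → ℝ)).2 i + (k.1 : Y × (I → ℝ)).2 i - _| < r
      rw [hk2 i hi, add_zero, sub_self, abs_zero]
      exact hr
    · change |(x₀.2 : ℕ → ℝ) i + (k.2 : ℕ → ℝ) i - _| < r
      rw [hk3 i hi, add_zero, sub_self, abs_zero]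
      exact hr)
  set Q := Qmap E Ψ with hQ
  have hQo : IsOpenMap Q := isOpenMap_Qmap hE Ψ
  have hQs : Function.Surjective Q := surjective_Qmap hE Ψ
  have hQc : Continuous Q := Q.continuous
  -- `f` factors through `Q`
  have hfac : ∀ x ∈ D, ∀ y, Q y = Q x → y ∈ D ∧ f y = f x := by
    intro x hx y hy
    have h1 := hinv x hx (y - x) (mem_NN_of_Qmap Ψ n hy)
    rwa [add_sub_cancel] at h1
  set D' : Set (Y × FF) := Q '' D with hD'
  set h : Y × FF → ℝ := fun q => f (Function.surjInv hQs q) with hh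
  have hhQ : ∀ x ∈ D, h (Q x) = f x := fun x hx =>
    (hfac x hx _ (Function.surjInv_eq hQs (Q x))).2
  have hmemD : ∀ x, Q x ∈ D' → x ∈ D := by
    rintro x ⟨y, hy, hyx⟩
    exact (hfac y hy x hyx.symm).1
  have hD'o : IsOpen D' := hQo D hD
  have hhconv : ConvexOn ℝ D' h := by
    refine ⟨?_, ?_⟩
    · exact hf.1.linear_image Q.toLinearMap
    · rintro _ ⟨x, hx, rfl⟩ _ ⟨y, hy, rfl⟩ a b ha hb hab
      rw [← map_smul, ← map_smul, ← map_add, hhQ x hx, hhQ y hy, hhQ _ (hf.1 hx hy ha hb hab)]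
      exact hf.2 hx hy ha hb hab
  have hhcont : ContinuousOn h D' := by
    rintro _ ⟨x, hx, rfl⟩
    refine ContinuousAt.continuousWithinAt ?_
    have h1 : Tendsto h (map Q (𝓝 x)) (𝓝 (h (Q x))) := by
      rw [tendsto_map'_iff, hhQ x hx]
      refine (hc.continuousAt (hD.mem_nhds hx)).congr' ?_
      filter_upwards [hD.mem_nhds hx] with y hy
      exact (hhQ y hy).symm
    exact h1.mono_left (hQo.nhds_le x)
  obtain ⟨G, hGD, hGδ, hGd, hGdiff⟩ := hW D' h ⟨_, x₀, hx₀, rfl⟩ hD'o hhconv hhcont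
  refine ⟨Q ⁻¹' G, fun x hx => hmemD x (hGD hx), hGδ.preimage hQc, ?_, ?_⟩
  · intro x hx
    rw [_root_.mem_closure_iff]
    intro O hO hxO
    obtain ⟨q, ⟨y, hy, hyq⟩, hqG⟩ := _root_.mem_closure_iff.mp (hGd ⟨x, hx, rfl⟩) (Q '' O)
      (hQo O hO) ⟨x, hxO, rfl⟩
    exact ⟨y, hy, by rw [mem_preimage, hyq]; exact hqG⟩
  · intro x hx
    have hxD : x ∈ D := hmemD x (hGD hx)
    obtain ⟨φ, hφ⟩ := hGdiff (Q x) hx
    have hφ' : ∀ v, Tendsto (fun t : ℝ => (f (x + t • v) - f x) / t) (𝓝[≠] 0)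
        (𝓝 ((φ.comp Q) v)) := by
      intro v
      refine (hφ (Q v)).congr' ?_
      have hcont : Continuous fun t : ℝ => x + t • v := by fun_prop
      have h0 : x + (0 : ℝ) • v ∈ D := by simpa using hxD
      filter_upwards [nhdsWithin_le_nhds (hcont.continuousAt.eventually (hD.mem_nhds h0))]
        with t ht
      rw [← map_smul, ← map_add, hhQ _ ht, hhQ x hxD]
    refine ⟨φ.comp Q, fun B hBb => ?_⟩
    obtain ⟨m, u, C, hu⟩ := exists_coordsX hB Ψ n hBb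
    exact frechet_aux hD hf hxD hφ' (NN E Ψ n) hinv u C B hu

end Pool.Agent.Lib_helper69.Asp
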