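import Pool.Agent.Lib_helper71.Db.Defs

/-!
G1: a bounded convex domain with smooth boundary is the unit ball of a smooth gauge.
-/

set_option autoImplicit false

open Set Filter Topology

namespace Db

section

variable {Ω : Set V} {ρ : V → ℝ}

lemma aux_mem_closure
    (hΩρ : Ω = {x | ρ x < 0}) (hd : ∀ x, ρ x = 0 → fderiv ℝ ρ x ≠ 0) {z : V} (hz : ρ z = 0) :
    z ∈ closure Ω := by
  by_contra hcl
  have hnb : (closure Ω)ᶜ ∈ 𝓝 z := isClosed_closure.isOpen_compl.mem_nhds hcl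
  have hmin : IsLocalMin ρ z := by
    filter_upwards [hnb] with y hy
    have hy' : y ∉ Ω := fun h => hy (subset_closure h)
    rw [hΩρ] at hy'
    simp only [mem_ofPred_eq, not_lt] at hy'
    rw [hz]; exact hy'
  exact hd z hz hmin.fderiv_eq_zero

lemma aux_gauge_one (hΩ : IsOpen Ω) (h0 : 0 ∈ Ω)
    (hc : Convex ℝ Ω) (hρ : ContDiff ℝ ((⊤ : ℕ∞) : WithTop ℕ∞) ρ)
    (hΩρ : Ω = {x | ρ x < 0}) (hd : ∀ x, ρ x = 0 → fderiv ℝ ρ x ≠ 0) {z : V} :
    gauge Ω z = 1 ↔ ρ z = 0 := by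
  have hnhds : Ω ∈ 𝓝 (0 : V) := hΩ.mem_nhds h0
  rw [gauge_eq_one_iff_mem_frontier hc hnhds, hΩ.frontier_eq]
  constructor
  · rintro ⟨h1, h2⟩
    have h3 : ρ z ≤ 0 := by
      have : closure Ω ⊆ {x | ρ x ≤ 0} := by
        apply closure_minimal
        · rw [hΩρ]; intro x hx; exact le_of_lt (show ρ x < 0 from hx)
        · exact isClosed_le hρ.continuous continuous_const
      exact this h1
    have h4 : ¬ ρ z < 0 := by
      intro h; apply h2; rw [hΩρ]; exact h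
    linarith [not_lt.1 h4]
  · intro h
    refine ⟨aux_mem_closure hΩρ hd h, ?_⟩
    rw [hΩρ]
    simp [h]

lemma aux_transversal (hΩ : IsOpen Ω) (h0 : 0 ∈ Ω)
    (hc : Convex ℝ Ω) (hρ : ContDiff ℝ ((⊤ : ℕ∞) : WithTop ℕ∞) ρ)
    (hΩρ : Ω = {x | ρ x < 0}) (hd : ∀ x, ρ x = 0 → fderiv ℝ ρ x ≠ 0) {z : V} (hz : ρ z = 0) :
    0 < fderiv ℝ ρ z z := by
  have hdiff : DifferentiableAt ℝ ρ z := (hρ.differentiable (by simp)) z
  -- key inequality
  have key : ∀ v ∈ Ω, fderiv ℝ ρ z (v - z) ≤ 0 := by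
    intro v hv
    have hcurve : HasDerivAt (fun s : ℝ => ρ (z + s • (v - z))) (fderiv ℝ ρ z (v - z)) 0 := by
      have h1 : HasDerivAt (fun s : ℝ => z + s • (v - z)) (v - z) 0 := by
        simpa using ((hasDerivAt_id (0 : ℝ)).smul_const (v - z)).const_add z
      have h2 : HasFDerivAt ρ (fderiv ℝ ρ z) (z + (0 : ℝ) • (v - z)) := by
        simpa using hdiff.hasFDerivAt
      exact h2.comp_hasDerivAt (0 : ℝ) h1
    have hlim := hcurve.tendsto_slope_zero_right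
    refine le_of_tendsto hlim ?_
    have hev : ∀ᶠ t : ℝ in 𝓝[>] (0 : ℝ), t ∈ Ioc (0 : ℝ) 1 := by
      exact Ioc_mem_nhdsGT one_pos
    filter_upwards [hev] with t ht
    have hmem : z + t • (v - z) ∈ interior Ω :=
      hc.add_smul_sub_mem_interior' (aux_mem_closure hΩρ hd hz)
        (by rwa [hΩ.interior_eq]) ht
    rw [hΩ.interior_eq, hΩρ] at hmem
    have hneg : ρ (z + t • (v - z)) < 0 := hmem
    simp only [zero_add, zero_smul, add_zero, smul_eq_mul]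
    rw [hz, sub_zero]
    exact mul_nonpos_of_nonneg_of_nonpos (inv_nonneg.2 ht.1.le) hneg.le
  -- choose a direction
  obtain ⟨w, hw⟩ : ∃ w, 0 < fderiv ℝ ρ z w := by
    by_contra hcon
    push Not at hcon
    apply hd z hz
    ext w
    have h1 := hcon w
    have h2 := hcon (-w)
    rw [map_neg] at h2
    simp only [zero_apply]
    linarith
  have hcont : Tendsto (fun δ : ℝ => δ • w) (𝓝[>] 0) (𝓝 (0 : V)) := by
    have : Tendsto (fun δ : ℝ => δ • w) (𝓝 0) (𝓝 ((0 : ℝ) • w)) :=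
      (continuous_id.smul continuous_const).tendsto 0
    rw [zero_smul] at this
    exact this.mono_left nhdsWithin_le_nhds
  have hev2 : ∀ᶠ δ : ℝ in 𝓝[>] (0 : ℝ), δ • w ∈ Ω := hcont (hΩ.mem_nhds h0)
  obtain ⟨δ, hδ1, hδ2⟩ := (hev2.and self_mem_nhdsWithin).exists
  have h3 := key _ hδ1
  rw [map_sub, map_smul, smul_eq_mul] at h3
  have h4 : 0 < δ * fderiv ℝ ρ z w := mul_pos hδ2 hw
  linarith

end

/-- G1: a bounded convex domain with smooth boundary is the unit ball of a smooth gauge. -/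
theorem exists_gauge (Ω : Set V) (hΩ : IsOpen Ω) (h0 : 0 ∈ Ω) (hb : Bornology.IsBounded Ω)
    (hc : Convex ℝ Ω) (ρ : V → ℝ) (hρ : ContDiff ℝ ((⊤ : ℕ∞) : WithTop ℕ∞) ρ)
    (hΩρ : Ω = {x | ρ x < 0}) (hd : ∀ x, ρ x = 0 → fderiv ℝ ρ x ≠ 0) :
    ∃ g : V → ℝ, IsGauge g ∧ Ω = {x | g x < 1} := by
  have hnhds : Ω ∈ 𝓝 (0 : V) := hΩ.mem_nhds h0
  have habs : Absorbent ℝ Ω := absorbent_nhds_zero hnhds
  have hvb : Bornology.IsVonNBounded ℝ Ω := (NormedSpace.isVonNBounded_iff ℝ).2 hb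
  have hpos : ∀ x : V, x ≠ 0 → 0 < gauge Ω x := fun x hx => (gauge_pos habs hvb).2 hx
  have hsmul : ∀ t : ℝ, 0 ≤ t → ∀ x : V, gauge Ω (t • x) = t * gauge Ω x := fun t ht x => by
    rw [gauge_smul_of_nonneg ht, smul_eq_mul]
  refine ⟨gauge Ω, ⟨hsmul, gauge_add_le hc habs, ?_, hpos⟩, ?_⟩
  · intro x hx
    have hx0 : x ≠ 0 := hx
    apply ContDiffAt.contDiffWithinAt
    set r : ℝ := gauge Ω x with hr
    have hr0 : 0 < r := hpos x hx0
    set z : V := r⁻¹ • x with hzdef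
    have hgz : gauge Ω z = 1 := by
      rw [hzdef, hsmul _ (inv_nonneg.2 hr0.le), ← hr, inv_mul_cancel₀ hr0.ne']
    have hρz : ρ z = 0 := (aux_gauge_one hΩ h0 hc hρ hΩρ hd).1 hgz
    have htr : 0 < fderiv ℝ ρ z z := aux_transversal hΩ h0 hc hρ hΩρ hd hρz
    have htrx : 0 < fderiv ℝ ρ z x := by
      have hxz : x = r • z := by
        rw [hzdef, smul_smul, mul_inv_cancel₀ hr0.ne', one_smul]
      have : fderiv ℝ ρ z x = r * fderiv ℝ ρ z z := by
        conv_lhs => rw [hxz]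
        rw [map_smul, smul_eq_mul]
      rw [this]
      exact mul_pos hr0 htr
    -- the implicit equation
    let F : V × ℝ → ℝ := fun p => ρ (p.2 • p.1)
    have hF : ContDiff ℝ ((⊤ : ℕ∞) : WithTop ℕ∞) F := hρ.comp (contDiff_snd.smul contDiff_fst)
    have cdf : ContDiffAt ℝ ((⊤ : ℕ∞) : WithTop ℕ∞) F (x, r⁻¹) := hF.contDiffAt
    have pn : ((⊤ : ℕ∞) : WithTop ℕ∞) ≠ 0 := by simp
    have hFu : F (x, r⁻¹) = 0 := hρz
    have hder : ∀ s : ℝ, (fderiv ℝ F (x, r⁻¹) ∘L ContinuousLinearMap.inr ℝ V ℝ) s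
        = s * fderiv ℝ ρ z x := by
      intro s
      have h1 : HasFDerivAt (fun p : V × ℝ => p.2 • p.1)
          ((r⁻¹ : ℝ) • (ContinuousLinearMap.fst ℝ V ℝ) +
            (ContinuousLinearMap.snd ℝ V ℝ).smulRight x) (x, r⁻¹) :=
        (hasFDerivAt_snd (𝕜 := ℝ) (p := ((x, r⁻¹) : V × ℝ))).smul
          (hasFDerivAt_fst (𝕜 := ℝ) (p := ((x, r⁻¹) : V × ℝ)))
      have h2 : HasFDerivAt ρ (fderiv ℝ ρ z) ((fun p : V × ℝ => p.2 • p.1) (x, r⁻¹)) :=
        ((hρ.differentiable (by simp)) z).hasFDerivAt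
      have h3 := (HasFDerivAt.comp (g := ρ) (f := fun p : V × ℝ => p.2 • p.1)
        ((x, r⁻¹) : V × ℝ) h2 h1).fderiv
      have h4 : fderiv ℝ F (x, r⁻¹) = (fderiv ℝ ρ z).comp
          ((r⁻¹ : ℝ) • (ContinuousLinearMap.fst ℝ V ℝ) +
            (ContinuousLinearMap.snd ℝ V ℝ).smulRight x) := h3
      rw [h4]
      simp
    have if₂ : (fderiv ℝ F (x, r⁻¹) ∘L ContinuousLinearMap.inr ℝ V ℝ).IsInvertible := by
      refine ⟨ContinuousLinearEquiv.smulLeft (Units.mk0 (fderiv ℝ ρ z x) htrx.ne'), ?_⟩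
      ext
      have := hder 1
      rw [this]
      simp [Units.smul_def]
    set ψ := cdf.implicitFunction pn if₂ with hψ
    have hψs : ContDiffAt ℝ ((⊤ : ℕ∞) : WithTop ℕ∞) ψ x := cdf.contDiffAt_implicitFunction pn if₂
    have hψx : ψ x = r⁻¹ := cdf.implicitFunction_apply_self pn if₂
    have hψeq : ∀ᶠ y in 𝓝 x, F (y, ψ y) = 0 := by
      have := cdf.eventually_apply_implicitFunction pn if₂
      rw [hFu] at this
      exact this
    have hψpos : ∀ᶠ y in 𝓝 x, 0 < ψ y := by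
      have : ψ x ∈ Ioi (0 : ℝ) := by rw [hψx]; exact inv_pos.2 hr0
      exact hψs.continuousAt (isOpen_Ioi.mem_nhds this)
    have heq : gauge Ω =ᶠ[𝓝 x] fun y => (ψ y)⁻¹ := by
      filter_upwards [hψeq, hψpos] with y hy1 hy2
      have h1 : gauge Ω (ψ y • y) = 1 := (aux_gauge_one hΩ h0 hc hρ hΩρ hd).2 hy1
      rw [hsmul _ hy2.le] at h1
      exact eq_inv_of_mul_eq_one_right h1
    exact (hψs.inv (by rw [hψx]; exact (inv_pos.2 hr0).ne')).congr_of_eventuallyEq heq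
  · exact (setOfPred_gauge_lt_one_eq_self_of_isOpen hc h0 hΩ).symm

end Db
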