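import Pool.Agent.Lib_helper71.Db.Maj

set_option autoImplicit false

open MeasureTheory Set Metric Filter Topology
open scoped ENNReal NNReal ComplexConjugate

namespace Db

namespace Pt

variable {g : V → ℝ}

lemma db_le (k : Fin 2) (φ : V →L[ℝ] ℂ) :
    ‖(1 / 2 : ℂ) * (φ (Pi.single k (1 : ℂ)) + Complex.I * φ (Pi.single k Complex.I))‖ ≤ ‖φ‖ := by
  have h1 : ‖φ (Pi.single k (1 : ℂ))‖ ≤ ‖φ‖ := by
    have := φ.le_opNorm (Pi.single k (1 : ℂ))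
    rwa [norm_single_one, mul_one] at this
  have h2 : ‖φ (Pi.single k Complex.I)‖ ≤ ‖φ‖ := by
    have := φ.le_opNorm (Pi.single k Complex.I)
    rwa [norm_single_I, mul_one] at this
  have h3 : ‖Complex.I * φ (Pi.single k Complex.I)‖ ≤ ‖φ‖ := by
    rw [norm_mul, Complex.norm_I, one_mul]; exact h2
  rw [norm_mul]
  have h0 : ‖(1 / 2 : ℂ)‖ = 1 / 2 := by simp
  rw [h0]
  have := norm_add_le (φ (Pi.single k (1 : ℂ))) (Complex.I * φ (Pi.single k Complex.I))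
  linarith

lemma norm_db_le (k : Fin 2) (u : V → ℂ) (x : V) : ‖db k u x‖ ≤ ‖fderiv ℝ u x‖ := db_le k _

lemma db_mul (k : Fin 2) {u v : V → ℂ} {x : V} (hu : DifferentiableAt ℝ u x)
    (hv : DifferentiableAt ℝ v x) :
    db k (fun y => u y * v y) x = db k u x * v x + u x * db k v x := by
  unfold db
  rw [fderiv_fun_mul hu hv]
  simp only [add_apply, smul_apply, smul_eq_mul]
  ring

lemma db_congr (k : Fin 2) {u v : V → ℂ} {x : V} (h : u =ᶠ[𝓝 x] v) : db k u x = db k v x := by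
  unfold db
  rw [h.fderiv_eq]

lemma db_eq_zero (k : Fin 2) {u : V → ℂ} {x : V} (h : ∀ᶠ y in 𝓝 x, u y = 0) : db k u x = 0 := by
  have h1 : u =ᶠ[𝓝 x] fun _ => (0 : ℂ) := h
  rw [db_congr k h1]
  simp [db]

/-! ### The function `q` and the kernel `conj (v j) / q v`. -/

lemma q_eq (v : V) : q v = ‖v 0‖ ^ 2 + ‖v 1‖ ^ 2 := by
  unfold q
  rw [Complex.normSq_eq_norm_sq, Complex.normSq_eq_norm_sq]

lemma norm_sq_le_q (v : V) : ‖v‖ ^ 2 ≤ q v := by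
  rw [q_eq]
  have h : ‖v‖ ≤ max ‖v 0‖ ‖v 1‖ := by
    rw [pi_norm_le_iff_of_nonneg (le_max_of_le_left (norm_nonneg _))]
    intro i
    fin_cases i
    · exact le_max_left _ _
    · exact le_max_right _ _
  rcases le_max_iff.1 h with h | h
  · nlinarith [norm_nonneg v, norm_nonneg (v 0), norm_nonneg (v 1)]
  · nlinarith [norm_nonneg v, norm_nonneg (v 0), norm_nonneg (v 1)]

lemma q_pos {v : V} (hv : v ≠ 0) : 0 < q v :=
  lt_of_lt_of_le (by have := norm_pos_iff.2 hv; positivity) (norm_sq_le_q v)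

/-- The derivative of `q`. -/
noncomputable def dq (v : V) : V →L[ℝ] ℝ :=
  (2 • (innerSL ℝ (v 0))).comp (ContinuousLinearMap.proj (R := ℝ) (φ := fun _ : Fin 2 => ℂ) 0) +
  (2 • (innerSL ℝ (v 1))).comp (ContinuousLinearMap.proj (R := ℝ) (φ := fun _ : Fin 2 => ℂ) 1)

lemma hasFDerivAt_q (v : V) : HasFDerivAt q (dq v) v := by
  have h0 : HasFDerivAt (fun v : V => ‖v 0‖ ^ 2)
      ((2 • (innerSL ℝ (v 0))).comp
        (ContinuousLinearMap.proj (R := ℝ) (φ := fun _ : Fin 2 => ℂ) 0)) v :=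
    HasFDerivAt.comp (g := fun w : ℂ => ‖w‖ ^ 2)
      (f := (ContinuousLinearMap.proj (R := ℝ) (φ := fun _ : Fin 2 => ℂ) 0)) v
      (hasStrictFDerivAt_norm_sq (v 0)).hasFDerivAt
      (ContinuousLinearMap.proj (R := ℝ) (φ := fun _ : Fin 2 => ℂ) 0).hasFDerivAt
  have h1 : HasFDerivAt (fun v : V => ‖v 1‖ ^ 2)
      ((2 • (innerSL ℝ (v 1))).comp
        (ContinuousLinearMap.proj (R := ℝ) (φ := fun _ : Fin 2 => ℂ) 1)) v :=
    HasFDerivAt.comp (g := fun w : ℂ => ‖w‖ ^ 2)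
      (f := (ContinuousLinearMap.proj (R := ℝ) (φ := fun _ : Fin 2 => ℂ) 1)) v
      (hasStrictFDerivAt_norm_sq (v 1)).hasFDerivAt
      (ContinuousLinearMap.proj (R := ℝ) (φ := fun _ : Fin 2 => ℂ) 1).hasFDerivAt
  have : q = fun v => ‖v 0‖ ^ 2 + ‖v 1‖ ^ 2 := funext q_eq
  rw [this]
  exact h0.add h1

lemma norm_dq_le (v : V) : ‖dq v‖ ≤ 4 * ‖v‖ := by
  refine ContinuousLinearMap.opNorm_le_bound _ (by positivity) fun w => ?_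
  have h : ∀ i : Fin 2, |inner ℝ (v i) (w i)| ≤ ‖v‖ * ‖w‖ := by
    intro i
    refine (abs_real_inner_le_norm _ _).trans ?_
    gcongr
    · exact norm_le_pi_norm v i
    · exact norm_le_pi_norm w i
  have h0 := h 0
  have h1 := h 1
  have : dq v w = 2 * inner ℝ (v 0) (w 0) + 2 * inner ℝ (v 1) (w 1) := by
    simp [dq]
    ring
  rw [this, Real.norm_eq_abs]
  refine (abs_add_le _ _).trans ?_
  rw [abs_mul, abs_mul, abs_two]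
  linarith

/-- `conj (v j) / q v`. -/
noncomputable def kap (j : Fin 2) (v : V) : ℂ := conj (v j) * ((q v : ℝ) : ℂ)⁻¹

noncomputable def conjP (j : Fin 2) : V →L[ℝ] ℂ :=
  (Complex.conjCLE : ℂ →L[ℝ] ℂ).comp
    (ContinuousLinearMap.proj (R := ℝ) (φ := fun _ : Fin 2 => ℂ) j)

lemma conjP_apply (j : Fin 2) (v : V) : conjP j v = conj (v j) := rfl

lemma norm_conj_le (j : Fin 2) (v : V) : ‖conj (v j)‖ ≤ ‖v‖ := by
  rw [RCLike.norm_conj]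
  exact norm_le_pi_norm v j

lemma norm_conjP_le (j : Fin 2) : ‖conjP j‖ ≤ 1 :=
  ContinuousLinearMap.opNorm_le_bound _ zero_le_one fun w => by
    rw [conjP_apply, one_mul]; exact norm_conj_le j w

lemma norm_kap_le (j : Fin 2) {v : V} (hv : v ≠ 0) : ‖kap j v‖ ≤ ‖v‖⁻¹ := by
  have hn : 0 < ‖v‖ := norm_pos_iff.2 hv
  have hq := q_pos hv
  unfold kap
  rw [norm_mul, norm_inv, Complex.norm_real, Real.norm_of_nonneg hq.le]
  calc ‖conj (v j)‖ * (q v)⁻¹ ≤ ‖v‖ * (‖v‖ ^ 2)⁻¹ := by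
        gcongr
        · exact norm_conj_le j v
        · exact norm_sq_le_q v
    _ = ‖v‖⁻¹ := by field_simp

lemma hasFDerivAt_invq {v : V} (hv : v ≠ 0) :
    HasFDerivAt (fun v : V => ((q v : ℝ) : ℂ)⁻¹)
      (Complex.ofRealCLM.comp ((-(q v ^ 2)⁻¹) • dq v)) v := by
  have hq := q_pos hv
  have h1 : HasFDerivAt (fun v => (q v)⁻¹) ((-(q v ^ 2)⁻¹) • dq v) v :=
    (hasDerivAt_inv hq.ne').comp_hasFDerivAt v (hasFDerivAt_q v)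
  have h2 := Complex.ofRealCLM.hasFDerivAt.comp v h1
  refine h2.congr_of_eventuallyEq (Eventually.of_forall fun w => ?_)
  simp

lemma kap_deriv (j : Fin 2) {v : V} (hv : v ≠ 0) :
    ∃ φ : V →L[ℝ] ℂ, HasFDerivAt (kap j) φ v ∧ ‖φ‖ ≤ 5 * (‖v‖ ^ 2)⁻¹ := by
  have hn : 0 < ‖v‖ := norm_pos_iff.2 hv
  have hq := q_pos hv
  have h1 : HasFDerivAt (fun v : V => conj (v j)) (conjP j) v := (conjP j).hasFDerivAt
  refine ⟨_, h1.mul (hasFDerivAt_invq hv), ?_⟩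
  refine (norm_add_le _ _).trans ?_
  rw [norm_smul, norm_smul]
  have e1 : ‖Complex.ofRealCLM.comp ((-(q v ^ 2)⁻¹) • dq v)‖ ≤ (‖v‖ ^ 4)⁻¹ * (4 * ‖v‖) := by
    refine (ContinuousLinearMap.opNorm_comp_le _ _).trans ?_
    rw [Complex.ofRealCLM_norm, one_mul, norm_smul, norm_neg, norm_inv, norm_pow,
      Real.norm_of_nonneg hq.le]
    have : ‖v‖ ^ 4 ≤ q v ^ 2 := by
      have := norm_sq_le_q v
      calc ‖v‖ ^ 4 = (‖v‖ ^ 2) ^ 2 := by ring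
        _ ≤ q v ^ 2 := by gcongr
    gcongr
    exact norm_dq_le v
  have e2 : ‖((q v : ℝ) : ℂ)⁻¹‖ ≤ (‖v‖ ^ 2)⁻¹ := by
    rw [norm_inv, Complex.norm_real, Real.norm_of_nonneg hq.le]
    gcongr
    exact norm_sq_le_q v
  calc ‖conj (v j)‖ * ‖Complex.ofRealCLM.comp ((-(q v ^ 2)⁻¹) • dq v)‖ +
        ‖((q v : ℝ) : ℂ)⁻¹‖ * ‖conjP j‖
      ≤ ‖v‖ * ((‖v‖ ^ 4)⁻¹ * (4 * ‖v‖)) + (‖v‖ ^ 2)⁻¹ * 1 := by
        gcongr
        · exact norm_conj_le j v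
        · exact norm_conjP_le j
    _ = 5 * (‖v‖ ^ 2)⁻¹ := by
        field_simp
        ring

/-! ### The function `theta`. -/

lemma theta_of_le {w : ℂ} (hw : ‖w‖ ≤ 1 / 4) : theta w = 0 := by
  unfold theta
  have : bumpC w = 1 := bumpC.one_of_mem_closedBall (by simpa [bumpC] using hw)
  rw [this]; simp

lemma theta_of_ge {w : ℂ} (hw : 1 / 2 ≤ ‖w‖) : theta w = w⁻¹ := by
  unfold theta
  have : bumpC w = 0 := bumpC.zero_of_le_dist (by simpa [bumpC] using hw)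
  rw [this]; simp

lemma contDiff_theta (n : ℕ) : ContDiff ℝ n theta := by
  rw [contDiff_iff_contDiffAt]
  intro w
  by_cases hw : ‖w‖ < 1 / 4
  · have : theta =ᶠ[𝓝 w] fun _ => 0 := by
      filter_upwards [continuous_norm.continuousAt.eventually (gt_mem_nhds hw)] with y hy
      exact theta_of_le hy.le
    exact contDiffAt_const.congr_of_eventuallyEq this
  · have hw0 : w ≠ 0 := by
      rintro rfl
      rw [norm_zero] at hw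
      norm_num at hw
    refine ContDiffAt.mul (contDiffAt_const.sub ?_) (contDiffAt_inv ℝ hw0)
    exact Complex.ofRealCLM.contDiff.contDiffAt.comp w bumpC.contDiffAt

lemma norm_theta_le (w : ℂ) : ‖theta w‖ ≤ 4 * (max 1 ‖w‖)⁻¹ := by
  by_cases hw : ‖w‖ ≤ 1 / 4
  · rw [theta_of_le hw, norm_zero]; positivity
  · rw [not_le] at hw
    have hw0 : 0 < ‖w‖ := by linarith
    unfold theta
    rw [norm_mul, norm_inv]
    have h1 : ‖(1 - (bumpC w : ℂ))‖ ≤ 1 := by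
      have : (1 - (bumpC w : ℂ)) = ((1 - bumpC w : ℝ) : ℂ) := by push_cast; rfl
      rw [this, Complex.norm_real, Real.norm_eq_abs, abs_le]
      have h2 := bumpC.nonneg (x := w)
      have h3 := bumpC.le_one (x := w)
      constructor <;> linarith
    calc ‖(1 - (bumpC w : ℂ))‖ * ‖w‖⁻¹ ≤ 1 * ‖w‖⁻¹ := by gcongr
      _ ≤ 4 * (max 1 ‖w‖)⁻¹ := by
        rw [one_mul, ← div_eq_mul_inv, inv_eq_one_div, div_le_div_iff₀ hw0 (by positivity)]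
        rcases max_cases 1 ‖w‖ with h | h <;> rw [h.1] <;> linarith

lemma exists_theta_bd : ∃ B : ℝ, 0 ≤ B ∧ ∀ w : ℂ, ‖w‖ ≤ 1 / 2 → ‖fderiv ℝ theta w‖ ≤ B := by
  have hc : Continuous (fderiv ℝ theta) := (contDiff_theta 1).continuous_fderiv (by norm_num)
  obtain ⟨B, hB⟩ := (isCompact_closedBall (0 : ℂ) (1 / 2)).exists_bound_of_continuousOn
    (f := fderiv ℝ theta) hc.continuousOn
  refine ⟨max B 0, le_max_right _ _, fun w hw => (hB w ?_).trans (le_max_left _ _)⟩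
  simpa using hw

/-! ### The derivatives of `Ph` and `Yf`. -/

/-- Multiplication by `I`. -/
noncomputable def mulI : V →L[ℝ] V := (Complex.I • ContinuousLinearMap.id ℂ V).restrictScalars ℝ

lemma mulI_apply (v : V) : mulI v = Complex.I • v := rfl

lemma norm_I_smul' (v : V) : ‖Complex.I • v‖ = ‖v‖ := by rw [norm_smul, Complex.norm_I, one_mul]

/-- The derivative of `Ph`. -/
noncomputable def dPh (g : V → ℝ) (ζ z : V) : V →L[ℝ] ℂ :=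
  Complex.ofRealCLM.comp ((D1 g ζ).comp (ContinuousLinearMap.id ℝ V) + (D2 g ζ).flip (ζ - z)) -
  Complex.I • Complex.ofRealCLM.comp ((D1 g ζ).comp mulI + (D2 g ζ).flip (mulI (ζ - z)))

lemma dPh_apply (g : V → ℝ) (ζ z h : V) : dPh g ζ z h =
    ((D1 g ζ h + D2 g ζ h (ζ - z) : ℝ) : ℂ) -
      Complex.I * ((D1 g ζ (Complex.I • h) + D2 g ζ h (Complex.I • (ζ - z)) : ℝ) : ℂ) := rfl

lemma hasFDerivAt_Ph (hg : IsGauge g) {ζ : V} (hζ : ζ ≠ 0) (z : V) :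
    HasFDerivAt (fun ζ => Ph g ζ z) (dPh g ζ z) ζ := by
  have hid : HasFDerivAt (fun ζ : V => ζ - z) (ContinuousLinearMap.id ℝ V) ζ :=
    (hasFDerivAt_id ζ).sub_const z
  have h1 : HasFDerivAt (fun ζ : V => fderiv ℝ g ζ (ζ - z))
      ((D1 g ζ).comp (ContinuousLinearMap.id ℝ V) + (D2 g ζ).flip (ζ - z)) ζ :=
    (hg.hasFDerivAt_D1 hζ).clm_apply hid
  have hid2 : HasFDerivAt (fun ζ : V => mulI (ζ - z)) mulI ζ :=
    HasFDerivAt.comp (g := (mulI : V → V)) (f := fun ζ : V => ζ - z) ζ mulI.hasFDerivAt hid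
  have h2 : HasFDerivAt (fun ζ : V => fderiv ℝ g ζ (mulI (ζ - z)))
      ((D1 g ζ).comp mulI + (D2 g ζ).flip (mulI (ζ - z))) ζ :=
    (hg.hasFDerivAt_D1 hζ).clm_apply hid2
  have h3 := Complex.ofRealCLM.hasFDerivAt.comp ζ h1
  have h4 := (Complex.ofRealCLM.hasFDerivAt.comp ζ h2).const_smul Complex.I
  exact h3.sub h4

lemma norm_dPh_le (g : V → ℝ) (ζ z : V) :
    ‖dPh g ζ z‖ ≤ 2 * (‖D1 g ζ‖ + ‖D2 g ζ‖ * ‖ζ - z‖) := by
  refine ContinuousLinearMap.opNorm_le_bound _ (by positivity) fun h => ?_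
  rw [dPh_apply]
  have h1 : ∀ a : V, |D1 g ζ a| ≤ ‖D1 g ζ‖ * ‖a‖ := fun a => (D1 g ζ).le_opNorm a
  have h2 : ∀ a b : V, |D2 g ζ a b| ≤ ‖D2 g ζ‖ * ‖a‖ * ‖b‖ := fun a b => by
    refine ((D2 g ζ a).le_opNorm b).trans ?_
    gcongr
    exact (D2 g ζ).le_opNorm a
  have e1 := h1 h
  have e2 := h1 (Complex.I • h)
  have e3 := h2 h (ζ - z)
  have e4 := h2 h (Complex.I • (ζ - z))
  rw [norm_I_smul'] at e2 e4
  refine (norm_sub_le _ _).trans ?_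
  rw [norm_mul, Complex.norm_I, one_mul, Complex.norm_real, Complex.norm_real, Real.norm_eq_abs,
    Real.norm_eq_abs]
  have e5 := abs_add_le (D1 g ζ h) (D2 g ζ h (ζ - z))
  have e6 := abs_add_le (D1 g ζ (Complex.I • h)) (D2 g ζ h (Complex.I • (ζ - z)))
  nlinarith

lemma db_Ph (hg : IsGauge g) {ζ : V} (hζ : ζ ≠ 0) (z : V) (k : Fin 2) :
    db k (fun ζ => Ph g ζ z) ζ = hk g k ζ (ζ - z) := by
  unfold db
  rw [(hasFDerivAt_Ph hg hζ z).fderiv, dPh_apply, dPh_apply]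
  have h1 : Complex.I • (Pi.single k (1 : ℂ) : V) = Pi.single k Complex.I := by
    rw [← Pi.single_smul, smul_eq_mul, mul_one]
  have h2 : Complex.I • (Pi.single k Complex.I : V) = -Pi.single k (1 : ℂ) := by
    rw [← Pi.single_smul, smul_eq_mul, Complex.I_mul_I, ← Pi.single_neg]
  rw [h1, h2, map_neg]
  unfold hk
  push_cast
  ring_nf
  rw [Complex.I_sq]
  ring

/-- The derivative of `Yf`. -/
noncomputable def dYf (g : V → ℝ) (ζ z : V) : V →L[ℝ] ℝ := - (D2 g ζ).flip z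

lemma hasFDerivAt_Yf (hg : IsGauge g) {ζ : V} (hζ : ζ ≠ 0) (z : V) :
    HasFDerivAt (fun ζ => Yf g ζ z) (dYf g ζ z) ζ := by
  have h1 : HasFDerivAt (fun ζ : V => fderiv ℝ g ζ z) ((D2 g ζ).flip z) ζ := by
    have := (hg.hasFDerivAt_D1 hζ).clm_apply (hasFDerivAt_const z ζ)
    simpa using this
  exact h1.const_sub 1

lemma norm_dYf_le (g : V → ℝ) (ζ z : V) : ‖dYf g ζ z‖ ≤ ‖D2 g ζ‖ * ‖z‖ := by
  unfold dYf
  rw [norm_neg]
  refine ((D2 g ζ).flip.le_opNorm z).trans ?_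
  rw [ContinuousLinearMap.opNorm_flip]

/-! ### The factor `Th`. -/

/-- The factor of the kernel which involves `Ph` and `Yf`. -/
noncomputable def Th (g : V → ℝ) (ζ z : V) : ℂ :=
  ((Yf g ζ z : ℝ) : ℂ)⁻¹ * theta (Ph g ζ z / ((Yf g ζ z : ℝ) : ℂ))

lemma norm_Th_le {ζ z : V} (hY : 0 < Yf g ζ z) :
    ‖Th g ζ z‖ ≤ 4 * (max ‖Ph g ζ z‖ (Yf g ζ z))⁻¹ := by
  unfold Th
  rw [norm_mul, norm_inv, Complex.norm_real, Real.norm_of_nonneg hY.le]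
  have h1 := norm_theta_le (Ph g ζ z / ((Yf g ζ z : ℝ) : ℂ))
  rw [norm_div, Complex.norm_real, Real.norm_of_nonneg hY.le] at h1
  calc (Yf g ζ z)⁻¹ * ‖theta (Ph g ζ z / ((Yf g ζ z : ℝ) : ℂ))‖
      ≤ (Yf g ζ z)⁻¹ * (4 * (max 1 (‖Ph g ζ z‖ / Yf g ζ z))⁻¹) := by gcongr
    _ = 4 * (Yf g ζ z * max 1 (‖Ph g ζ z‖ / Yf g ζ z))⁻¹ := by rw [mul_inv]; ring
    _ = 4 * (max ‖Ph g ζ z‖ (Yf g ζ z))⁻¹ := by
      rw [mul_max_of_nonneg _ _ hY.le, mul_one, mul_div_cancel₀ _ hY.ne', max_comm]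

lemma hasFDerivAt_Yi (hg : IsGauge g) {ζ z : V} (hζ : ζ ≠ 0) (hY : 0 < Yf g ζ z) :
    HasFDerivAt (fun ζ => ((Yf g ζ z : ℝ) : ℂ)⁻¹)
      (Complex.ofRealCLM.comp ((-(Yf g ζ z ^ 2)⁻¹) • dYf g ζ z)) ζ := by
  have h1 : HasFDerivAt (fun ζ => (Yf g ζ z)⁻¹) ((-(Yf g ζ z ^ 2)⁻¹) • dYf g ζ z) ζ :=
    (hasDerivAt_inv hY.ne').comp_hasFDerivAt ζ (hasFDerivAt_Yf hg hζ z)
  have h2 := Complex.ofRealCLM.hasFDerivAt.comp ζ h1
  refine h2.congr_of_eventuallyEq (Eventually.of_forall fun w => ?_)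
  simp

lemma norm_dYi_le {ζ z : V} {M : ℝ} (hM : ‖dYf g ζ z‖ ≤ M) :
    ‖Complex.ofRealCLM.comp ((-(Yf g ζ z ^ 2)⁻¹) • dYf g ζ z)‖ ≤ (Yf g ζ z ^ 2)⁻¹ * M := by
  refine (ContinuousLinearMap.opNorm_comp_le _ _).trans ?_
  rw [Complex.ofRealCLM_norm, one_mul, norm_smul, norm_neg, norm_inv,
    Real.norm_of_nonneg (sq_nonneg _)]
  gcongr

lemma Th_near (hg : IsGauge g) {ζ z : V} (hζ : ζ ≠ 0) (hY : 0 < Yf g ζ z)
    (hP : ‖Ph g ζ z‖ ≤ Yf g ζ z / 2) {B M₁ M₂ : ℝ} (hB0 : 0 ≤ B)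
    (hB : ∀ w : ℂ, ‖w‖ ≤ 1 / 2 → ‖fderiv ℝ theta w‖ ≤ B)
    (hM₁ : ‖dYf g ζ z‖ ≤ M₁) (hM₂ : ‖dPh g ζ z‖ ≤ M₂) :
    ∃ φ : V →L[ℝ] ℂ, HasFDerivAt (fun ζ => Th g ζ z) φ ζ ∧
      ‖φ‖ ≤ (B * (M₁ + M₂) + 4 * M₁) * (Yf g ζ z ^ 2)⁻¹ := by
  have hY2 := hasFDerivAt_Yi hg hζ hY
  have hM₁0 : 0 ≤ M₁ := (norm_nonneg _).trans hM₁
  have hM₂0 : 0 ≤ M₂ := (norm_nonneg _).trans hM₂
  set Y := Yf g ζ z with hYdef
  set P := Ph g ζ z with hPdef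
  set dY := Complex.ofRealCLM.comp ((-(Y ^ 2)⁻¹) • dYf g ζ z) with hdY
  have hdYle : ‖dY‖ ≤ (Y ^ 2)⁻¹ * M₁ := norm_dYi_le hM₁
  have hw : HasFDerivAt (fun ζ => Ph g ζ z / ((Yf g ζ z : ℝ) : ℂ))
      (P • dY + ((Y : ℝ) : ℂ)⁻¹ • dPh g ζ z) ζ := by
    simp only [div_eq_mul_inv]
    exact (hasFDerivAt_Ph hg hζ z).mul hY2
  have hYn : ‖((Y : ℝ) : ℂ)⁻¹‖ = Y⁻¹ := by
    rw [norm_inv, Complex.norm_real, Real.norm_of_nonneg hY.le]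
  have hwn : ‖P / ((Y : ℝ) : ℂ)‖ ≤ 1 / 2 := by
    rw [div_eq_mul_inv, norm_mul, hYn, ← div_eq_mul_inv, div_le_iff₀ hY]
    linarith
  have hdw : ‖P • dY + ((Y : ℝ) : ℂ)⁻¹ • dPh g ζ z‖ ≤ Y⁻¹ * (M₁ + M₂) := by
    refine (norm_add_le _ _).trans ?_
    rw [norm_smul, norm_smul, hYn]
    calc ‖P‖ * ‖dY‖ + Y⁻¹ * ‖dPh g ζ z‖ ≤ Y * ((Y ^ 2)⁻¹ * M₁) + Y⁻¹ * M₂ := by
          gcongr
          linarith
      _ = Y⁻¹ * (M₁ + M₂) := by field_simp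
  have hth : HasFDerivAt (fun ζ => theta (Ph g ζ z / ((Yf g ζ z : ℝ) : ℂ)))
      ((fderiv ℝ theta (P / ((Y : ℝ) : ℂ))).comp
        (P • dY + ((Y : ℝ) : ℂ)⁻¹ • dPh g ζ z)) ζ := by
    have h1 : HasFDerivAt theta (fderiv ℝ theta (P / ((Y : ℝ) : ℂ))) (P / ((Y : ℝ) : ℂ)) :=
      ((contDiff_theta 1).differentiable (by norm_num) _).hasFDerivAt
    exact HasFDerivAt.comp (g := theta) (f := fun ζ => Ph g ζ z / ((Yf g ζ z : ℝ) : ℂ)) ζ h1 hw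
  have hthn : ‖(fderiv ℝ theta (P / ((Y : ℝ) : ℂ))).comp
        (P • dY + ((Y : ℝ) : ℂ)⁻¹ • dPh g ζ z)‖ ≤ B * (Y⁻¹ * (M₁ + M₂)) := by
    refine (ContinuousLinearMap.opNorm_comp_le _ _).trans ?_
    gcongr
    exact hB _ hwn
  have hthv : ‖theta (P / ((Y : ℝ) : ℂ))‖ ≤ 4 := by
    refine (norm_theta_le _).trans ?_
    have : (max 1 ‖P / ((Y : ℝ) : ℂ)‖)⁻¹ ≤ 1 := inv_le_one_of_one_le₀ (le_max_left _ _)
    linarith
  refine ⟨_, hY2.mul hth, ?_⟩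
  refine (norm_add_le _ _).trans ?_
  rw [norm_smul, norm_smul, hYn]
  calc Y⁻¹ * ‖(fderiv ℝ theta (P / ((Y : ℝ) : ℂ))).comp
        (P • dY + ((Y : ℝ) : ℂ)⁻¹ • dPh g ζ z)‖ + ‖theta (P / ((Y : ℝ) : ℂ))‖ * ‖dY‖
      ≤ Y⁻¹ * (B * (Y⁻¹ * (M₁ + M₂))) + 4 * ((Y ^ 2)⁻¹ * M₁) := by gcongr
    _ = (B * (M₁ + M₂) + 4 * M₁) * (Y ^ 2)⁻¹ := by field_simp

lemma Th_far (hg : IsGauge g) {ζ z : V} (hζ : ζ ≠ 0) (hY : 0 < Yf g ζ z)
    (hP : Yf g ζ z / 2 < ‖Ph g ζ z‖) :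
    DifferentiableAt ℝ (fun ζ => Th g ζ z) ζ ∧ ∀ k, ‖db k (fun ζ => Th g ζ z) ζ‖ ≤
      ‖hk g k ζ (ζ - z)‖ * (‖Ph g ζ z‖ ^ 2)⁻¹ := by
  have hP0 : Ph g ζ z ≠ 0 := norm_pos_iff.1 (by linarith)
  have hPc : ContinuousAt (fun ζ => Ph g ζ z) ζ := (hasFDerivAt_Ph hg hζ z).continuousAt
  have hYc : ContinuousAt (fun ζ => Yf g ζ z) ζ := (hasFDerivAt_Yf hg hζ z).continuousAt
  have hev : (fun ζ => Th g ζ z) =ᶠ[𝓝 ζ] fun ζ => (Ph g ζ z)⁻¹ := by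
    have e1 : ∀ᶠ x in 𝓝 ζ, 0 < Yf g x z := hYc.eventually (lt_mem_nhds hY)
    have e2 : ∀ᶠ x in 𝓝 ζ, Yf g x z / 2 < ‖Ph g x z‖ :=
      (hYc.div_const 2).eventually_lt hPc.norm hP
    filter_upwards [e1, e2] with x hx1 hx2
    unfold Th
    rw [theta_of_ge, inv_div, div_eq_mul_inv, ← mul_assoc, inv_mul_cancel₀, one_mul]
    · exact_mod_cast hx1.ne'
    · rw [norm_div, Complex.norm_real, Real.norm_of_nonneg hx1.le, le_div_iff₀ hx1]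
      linarith
  have hinv : HasFDerivAt (fun w : ℂ => w⁻¹)
      ((ContinuousLinearMap.toSpanSingleton ℂ (-(Ph g ζ z ^ 2)⁻¹)).restrictScalars ℝ)
      (Ph g ζ z) := (hasDerivAt_inv hP0).hasFDerivAt.restrictScalars ℝ
  have hder : HasFDerivAt (fun ζ => (Ph g ζ z)⁻¹)
      (((ContinuousLinearMap.toSpanSingleton ℂ (-(Ph g ζ z ^ 2)⁻¹)).restrictScalars ℝ).comp
        (dPh g ζ z)) ζ :=
    HasFDerivAt.comp (g := fun w : ℂ => w⁻¹) (f := fun ζ => Ph g ζ z) ζ hinv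
      (hasFDerivAt_Ph hg hζ z)
  refine ⟨hder.differentiableAt.congr_of_eventuallyEq hev, fun k => ?_⟩
  rw [db_congr k hev]
  have h1 : db k (fun ζ => (Ph g ζ z)⁻¹) ζ = (-(Ph g ζ z ^ 2)⁻¹) * hk g k ζ (ζ - z) := by
    rw [← db_Ph hg hζ z k]
    unfold db
    rw [hder.fderiv, (hasFDerivAt_Ph hg hζ z).fderiv]
    simp only [ContinuousLinearMap.comp_apply, ContinuousLinearMap.coe_restrictScalars',
      ContinuousLinearMap.toSpanSingleton_apply, smul_eq_mul]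
    ring
  rw [h1, norm_mul, norm_neg, norm_inv, norm_pow, mul_comm]

/-! ### The factor `Ak`. -/

lemma hasFDerivAt_pc (hg : IsGauge g) (j : Fin 2) {ζ : V} (hζ : ζ ≠ 0) {M : ℝ}
    (hM : ‖D2 g ζ‖ ≤ M) : ∃ φ : V →L[ℝ] ℂ, HasFDerivAt (pc g j) φ ζ ∧ ‖φ‖ ≤ 2 * M := by
  have h1 : ∀ a : V, HasFDerivAt (fun ζ : V => fderiv ℝ g ζ a) ((D2 g ζ).flip a) ζ := by
    intro a
    have := (hg.hasFDerivAt_D1 hζ).clm_apply (hasFDerivAt_const a ζ)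
    simpa using this
  have h3 := Complex.ofRealCLM.hasFDerivAt.comp ζ (h1 (Pi.single j (1 : ℂ)))
  have h4 := (Complex.ofRealCLM.hasFDerivAt.comp ζ
    (h1 (Complex.I • (Pi.single j (1 : ℂ) : V)))).const_smul Complex.I
  refine ⟨_, h3.sub h4, ?_⟩
  have h5 : ∀ a : V, ‖a‖ = 1 → ‖Complex.ofRealCLM.comp ((D2 g ζ).flip a)‖ ≤ M := by
    intro a ha
    refine (ContinuousLinearMap.opNorm_comp_le _ _).trans ?_
    rw [Complex.ofRealCLM_norm, one_mul]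
    refine ((D2 g ζ).flip.le_opNorm a).trans ?_
    rw [ContinuousLinearMap.opNorm_flip, ha, mul_one]
    exact hM
  refine (norm_sub_le _ _).trans ?_
  rw [norm_smul, Complex.norm_I, one_mul]
  have h6 := h5 (Pi.single j (1 : ℂ)) (norm_single_one j)
  have h7 := h5 (Complex.I • (Pi.single j (1 : ℂ) : V)) (by
    rw [norm_I_smul', norm_single_one])
  linarith

lemma norm_pc_le (j : Fin 2) {ζ : V} {M : ℝ} (hM : ‖D1 g ζ‖ ≤ M) : ‖pc g j ζ‖ ≤ 2 * M := by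
  have h1 : ∀ a : V, ‖a‖ = 1 → ‖((D1 g ζ a : ℝ) : ℂ)‖ ≤ M := by
    intro a ha
    rw [Complex.norm_real]
    refine ((D1 g ζ).le_opNorm a).trans ?_
    rw [ha, mul_one]
    exact hM
  unfold pc L
  refine (norm_sub_le _ _).trans ?_
  rw [norm_mul, Complex.norm_I, one_mul]
  have h6 := h1 (Pi.single j (1 : ℂ)) (norm_single_one j)
  have h7 := h1 (Complex.I • (Pi.single j (1 : ℂ) : V)) (by
    rw [norm_I_smul', norm_single_one])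
  linarith

lemma Ak_eq (g : V → ℝ) (ζ z : V) :
    Ak g ζ z = kap 0 (ζ - z) * pc g 1 ζ - kap 1 (ζ - z) * pc g 0 ζ := by
  unfold Ak kap
  rw [sub_div, div_eq_mul_inv, div_eq_mul_inv]
  ring

lemma Ak_bds (hg : IsGauge g) {ζ z : V} (hζ : ζ ≠ 0) (hv : ζ - z ≠ 0) {M : ℝ} (hM0 : 0 ≤ M)
    (hM1 : ‖D1 g ζ‖ ≤ M) (hM2 : ‖D2 g ζ‖ ≤ M) :
    ‖Ak g ζ z‖ ≤ 4 * M * ‖ζ - z‖⁻¹ ∧ ∃ φ : V →L[ℝ] ℂ, HasFDerivAt (fun ζ => Ak g ζ z) φ ζ ∧
      ‖φ‖ ≤ 20 * M * (‖ζ - z‖ ^ 2)⁻¹ + 4 * M * ‖ζ - z‖⁻¹ := by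
  have hn : 0 < ‖ζ - z‖ := norm_pos_iff.2 hv
  constructor
  · rw [Ak_eq]
    refine (norm_sub_le _ _).trans ?_
    rw [norm_mul, norm_mul]
    calc ‖kap 0 (ζ - z)‖ * ‖pc g 1 ζ‖ + ‖kap 1 (ζ - z)‖ * ‖pc g 0 ζ‖
        ≤ ‖ζ - z‖⁻¹ * (2 * M) + ‖ζ - z‖⁻¹ * (2 * M) := by
          gcongr
          · exact norm_kap_le 0 hv
          · exact norm_pc_le 1 hM1
          · exact norm_kap_le 1 hv
          · exact norm_pc_le 0 hM1
      _ = _ := by ring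
  · have hid : HasFDerivAt (fun ζ : V => ζ - z) (ContinuousLinearMap.id ℝ V) ζ :=
      (hasFDerivAt_id ζ).sub_const z
    have hk : ∀ j, ∃ φ : V →L[ℝ] ℂ, HasFDerivAt (fun ζ => kap j (ζ - z)) φ ζ ∧
        ‖φ‖ ≤ 5 * (‖ζ - z‖ ^ 2)⁻¹ := by
      intro j
      obtain ⟨φ, h1, h2⟩ := kap_deriv j hv
      refine ⟨φ, ?_, h2⟩
      have := HasFDerivAt.comp (g := kap j) (f := fun ζ : V => ζ - z) ζ h1 hid
      rwa [ContinuousLinearMap.comp_id] at this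
    obtain ⟨φ0, h01, h02⟩ := hk 0
    obtain ⟨φ1, h11, h12⟩ := hk 1
    obtain ⟨ψ0, k01, k02⟩ := hasFDerivAt_pc hg 0 hζ hM2
    obtain ⟨ψ1, k11, k12⟩ := hasFDerivAt_pc hg 1 hζ hM2
    have hA : (fun ζ => Ak g ζ z) = fun ζ => kap 0 (ζ - z) * pc g 1 ζ - kap 1 (ζ - z) * pc g 0 ζ :=
      funext fun ζ => Ak_eq g ζ z
    rw [hA]
    refine ⟨_, (h01.mul k11).sub (h11.mul k01), ?_⟩
    refine (norm_sub_le _ _).trans ?_
    refine (add_le_add (norm_add_le _ _) (norm_add_le _ _)).trans ?_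
    rw [norm_smul, norm_smul, norm_smul, norm_smul]
    calc ‖kap 0 (ζ - z)‖ * ‖ψ1‖ + ‖pc g 1 ζ‖ * ‖φ0‖ +
          (‖kap 1 (ζ - z)‖ * ‖ψ0‖ + ‖pc g 0 ζ‖ * ‖φ1‖)
        ≤ ‖ζ - z‖⁻¹ * (2 * M) + (2 * M) * (5 * (‖ζ - z‖ ^ 2)⁻¹) +
          (‖ζ - z‖⁻¹ * (2 * M) + (2 * M) * (5 * (‖ζ - z‖ ^ 2)⁻¹)) := by
          gcongr
          · exact norm_kap_le 0 hv
          · exact norm_pc_le 1 hM1
          · exact norm_kap_le 1 hv
          · exact norm_pc_le 0 hM1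
      _ = _ := by ring

/-! ### The factor `psi`. -/

/-- The factor `psi (g ζ)`. -/
noncomputable def Ps (g : V → ℝ) (ζ : V) : ℂ := (psi (g ζ) : ℂ)

lemma norm_Ps_le (ζ : V) : ‖Ps g ζ‖ ≤ 1 := by
  unfold Ps psi
  rw [Complex.norm_real, Real.norm_of_nonneg (Real.smoothTransition.nonneg _)]
  exact Real.smoothTransition.le_one _

lemma contDiffAt_Ps (hg : IsGauge g) {ζ : V} (hζ : ζ ≠ 0) : ContDiffAt ℝ 2 (Ps g) ζ := by
  have h1 : ContDiffAt ℝ 2 g ζ := hg.contDiffAt_nat hζ 2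
  have h2 : ContDiffAt ℝ 2 (fun ζ => Real.smoothTransition (4 * g ζ - 1)) ζ :=
    Real.smoothTransition.contDiffAt.comp ζ ((contDiffAt_const.mul h1).sub contDiffAt_const)
  exact Complex.ofRealCLM.contDiff.contDiffAt.comp ζ h2

/-! ### Constants. -/

lemma gauge_cont (hg : IsGauge g) : Continuous g := by
  rw [← continuousOn_univ]
  exact hg.convexOn.continuousOn isOpen_univ

lemma gauge_compact (hg : IsGauge g) : IsCompact {x | g x ≤ 1} := by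
  have hcl : IsClosed {x | g x ≤ 1} := isClosed_le (gauge_cont hg) continuous_const
  have hne : (sphere (0 : V) 1).Nonempty := NormedSpace.sphere_nonempty.2 zero_le_one
  obtain ⟨x₀, hx₀, hmin⟩ :=
    (isCompact_sphere (0 : V) 1).exists_isMinOn hne (gauge_cont hg).continuousOn
  have hx₀' : x₀ ≠ 0 := by
    rintro rfl
    simp at hx₀
  have hm := hg.pos x₀ hx₀'
  refine (isCompact_closedBall (0 : V) (1 / g x₀)).of_isClosed_subset hcl ?_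
  intro x hx
  have hx1 : g x ≤ 1 := hx
  rw [mem_closedBall, dist_zero_right, le_div_iff₀ hm]
  by_cases h0 : x = 0
  · subst h0; simp
  have hn : 0 < ‖x‖ := norm_pos_iff.2 h0
  have h1 : ‖x‖⁻¹ • x ∈ sphere (0 : V) 1 := by
    rw [mem_sphere, dist_zero_right, norm_smul, norm_inv, norm_norm, inv_mul_cancel₀ hn.ne']
  have h2 : g x₀ ≤ g (‖x‖⁻¹ • x) := hmin h1
  rw [hg.smul _ (by positivity)] at h2
  calc ‖x‖ * g x₀ ≤ ‖x‖ * (‖x‖⁻¹ * g x) := by gcongr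
    _ = g x := by field_simp
    _ ≤ 1 := hx1

lemma exists_const (hg : IsGauge g) : ∃ M : ℝ, 0 ≤ M ∧ (∀ z, g z ≤ 1 → ‖z‖ ≤ M) ∧
    ∀ ζ, 1 / 4 ≤ g ζ → g ζ ≤ 1 → ‖D1 g ζ‖ ≤ M ∧ ‖D2 g ζ‖ ≤ M ∧ ‖fderiv ℝ (Ps g) ζ‖ ≤ M := by
  have hK : IsCompact {ζ | 1 / 4 ≤ g ζ ∧ g ζ ≤ 1} := by
    have : {ζ | 1 / 4 ≤ g ζ ∧ g ζ ≤ 1} = {ζ | g ζ ≤ 1} ∩ {ζ | 1 / 4 ≤ g ζ} := by
      ext ζ; exact and_comm
    rw [this]
    exact (gauge_compact hg).inter_right (isClosed_le continuous_const (gauge_cont hg))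
  have hK0 : ∀ ζ ∈ {ζ | 1 / 4 ≤ g ζ ∧ g ζ ≤ 1}, ζ ≠ 0 := by
    rintro ζ ⟨h1, -⟩ rfl
    rw [hg.zero] at h1
    norm_num at h1
  obtain ⟨B1, hB1⟩ := (gauge_compact hg).exists_bound_of_continuousOn (f := fun x : V => x)
    continuousOn_id
  obtain ⟨B2, hB2⟩ := hK.exists_bound_of_continuousOn (f := fderiv ℝ g) (fun ζ hζ =>
    ((hg.contDiffAt_D1_nat (hK0 ζ hζ) 0).continuousAt).continuousWithinAt)
  obtain ⟨B3, hB3⟩ := hK.exists_bound_of_continuousOn (f := fun ζ => D2 g ζ) (fun ζ hζ =>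
    ((hg.contDiffAt_D2_nat (hK0 ζ hζ) 0).continuousAt).continuousWithinAt)
  obtain ⟨B4, hB4⟩ := hK.exists_bound_of_continuousOn (f := fderiv ℝ (Ps g)) (fun ζ hζ =>
    (((contDiffAt_Ps hg (hK0 ζ hζ)).fderiv_right (m := 0) (by norm_num)).continuousAt).continuousWithinAt)
  refine ⟨max 0 (max B1 (max B2 (max B3 B4))), le_max_left _ _, fun z hz => ?_,
    fun ζ h1 h2 => ⟨?_, ?_, ?_⟩⟩
  · exact (hB1 z hz).trans (by simp)
  · exact (hB2 ζ ⟨h1, h2⟩).trans (by simp)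
  · exact (hB3 ζ ⟨h1, h2⟩).trans (by simp)
  · exact (hB4 ζ ⟨h1, h2⟩).trans (by simp)

/-! ### The real majorant. -/

open Classical in
/-- The real version of the majorant. -/
noncomputable def rmaj (g : V → ℝ) (ζ z : V) : ℝ :=
  (‖ζ - z‖ ^ 2)⁻¹ * (max ‖Ph g ζ z‖ (Yf g ζ z))⁻¹ +
  (if Yf g ζ z / 2 < ‖Ph g ζ z‖ then
    ‖ζ - z‖⁻¹ * ((‖hk g 0 ζ (ζ - z)‖ + ‖hk g 1 ζ (ζ - z)‖) * (‖Ph g ζ z‖ ^ 2)⁻¹) else 0) +
  (if ‖Ph g ζ z‖ ≤ Yf g ζ z / 2 then ‖ζ - z‖⁻¹ * (Yf g ζ z ^ 2)⁻¹ else 0)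

lemma enorm_rpow_neg_two {E : Type*} [NormedAddCommGroup E] {x : E} (hx : x ≠ 0) :
    ‖x‖ₑ ^ (-(2 : ℝ)) = ENNReal.ofReal ((‖x‖ ^ 2)⁻¹) := by
  have hn : 0 < ‖x‖ := norm_pos_iff.2 hx
  rw [← ofReal_norm, ENNReal.ofReal_rpow_of_pos hn, Real.rpow_neg hn.le]
  norm_num

lemma enorm_rpow_neg_one {E : Type*} [NormedAddCommGroup E] {x : E} (hx : x ≠ 0) :
    ‖x‖ₑ ^ (-(1 : ℝ)) = ENNReal.ofReal (‖x‖⁻¹) := by
  have hn : 0 < ‖x‖ := norm_pos_iff.2 hx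
  rw [← ofReal_norm, ENNReal.ofReal_rpow_of_pos hn, Real.rpow_neg hn.le, Real.rpow_one]

lemma ofReal_rmaj {ζ z : V} (hv : ζ - z ≠ 0) (hY : 0 < Yf g ζ z) :
    ENNReal.ofReal (rmaj g ζ z) = maj g ζ z := by
  have hn : 0 < ‖ζ - z‖ := norm_pos_iff.2 hv
  have hmx : 0 < max ‖Ph g ζ z‖ (Yf g ζ z) := lt_max_of_lt_right hY
  unfold rmaj maj
  rw [ENNReal.ofReal_add, ENNReal.ofReal_add]
  · congr 1
    · congr 1
      · unfold maj1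
        rw [ENNReal.ofReal_mul (by positivity), enorm_rpow_neg_two hv,
          ENNReal.ofReal_inv_of_pos hmx, ← ofReal_norm (Ph g ζ z), ENNReal.ofReal_max]
      · unfold maj2
        split_ifs with h
        · have hP0 : Ph g ζ z ≠ 0 := norm_pos_iff.1 (by linarith)
          rw [ENNReal.ofReal_mul (by positivity), ENNReal.ofReal_mul (by positivity),
            ENNReal.ofReal_add (by positivity) (by positivity), enorm_rpow_neg_two hP0,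
            enorm_rpow_neg_one hv, ofReal_norm, ofReal_norm]
        · simp
    · unfold maj3
      split_ifs with h
      · rw [ENNReal.ofReal_mul (by positivity), enorm_rpow_neg_one hv]
        congr 2
      · simp
  · positivity
  · split_ifs <;> positivity
  · have : 0 ≤ (if Yf g ζ z / 2 < ‖Ph g ζ z‖ then
      ‖ζ - z‖⁻¹ * ((‖hk g 0 ζ (ζ - z)‖ + ‖hk g 1 ζ (ζ - z)‖) * (‖Ph g ζ z‖ ^ 2)⁻¹) else 0) := by
      split_ifs <;> positivity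
    positivity
  · split_ifs <;> positivity

lemma comb₁ {t1 t2 a b c1 c2 c3 : ℝ} (h1 : t1 ≤ c1 * a) (h2 : t2 ≤ c3 * b) (ha : 0 ≤ a)
    (hb : 0 ≤ b) (hc1 : 0 ≤ c1) (hc2 : 0 ≤ c2) (hc3 : 0 ≤ c3) :
    t1 + t2 ≤ (c1 + c2 + c3) * (a + b) := by
  nlinarith [mul_nonneg hc2 ha, mul_nonneg hc2 hb, mul_nonneg hc1 hb, mul_nonneg hc3 ha]

lemma comb₂ {t1 t2 a b c1 c2 c3 : ℝ} (h1 : t1 ≤ c1 * a) (h2 : t2 ≤ c2 * b) (ha : 0 ≤ a)
    (hb : 0 ≤ b) (hc1 : 0 ≤ c1) (hc2 : 0 ≤ c2) (hc3 : 0 ≤ c3) :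
    t1 + t2 ≤ (c1 + c2 + c3) * (a + b) := by
  nlinarith [mul_nonneg hc2 ha, mul_nonneg hc3 hb, mul_nonneg hc1 hb, mul_nonneg hc3 ha]

end Pt

open Pt

/-- G5: pointwise bound of the kernel. -/
theorem kernel_pointwise {g : V → ℝ} (hg : IsGauge g) : ∃ C : ℝ≥0∞, C ≠ ⊤ ∧ ∀ z, g z < 1 →
    ∀ ζ, g ζ < 1 → ∀ k, ‖db k (fun ζ => bker g ζ z) ζ‖ₑ ≤
      C * {ζ | 1 / 4 ≤ g ζ}.indicator (fun ζ => maj g ζ z) ζ := by
  obtain ⟨M, hM0, hMz, hMζ⟩ := exists_const hg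
  obtain ⟨B, hB0, hB⟩ := exists_theta_bd
  set M₁ := M * M with hM₁
  set M₂ := 2 * (M + M * (M + M)) with hM₂
  have hM₁0 : 0 ≤ M₁ := by positivity
  have hM₂0 : 0 ≤ M₂ := by positivity
  set C₁ : ℝ := (M * (4 * M) * (M + M) + (20 * M + 4 * M * (M + M))) * 4 with hC₁
  set C₃ : ℝ := 4 * M * (B * (M₁ + M₂) + 4 * M₁) with hC₃
  have hC₁0 : 0 ≤ C₁ := by positivity
  have hC₃0 : 0 ≤ C₃ := by positivity
  set C : ℝ := C₁ + 4 * M + C₃ with hC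
  refine ⟨ENNReal.ofReal C, ENNReal.ofReal_ne_top, fun z hz ζ hζ1 k => ?_⟩
  by_cases h4 : 1 / 4 ≤ g ζ
  swap
  · have : ∀ᶠ y in 𝓝 ζ, bker g y z = 0 := by
      have e1 : ∀ᶠ y in 𝓝 ζ, g y < 1 / 4 :=
        (gauge_cont hg).continuousAt.eventually (gt_mem_nhds (not_le.1 h4))
      filter_upwards [e1] with y hy
      unfold bker psi
      rw [Real.smoothTransition.zero_of_nonpos (by linarith)]
      simp
    rw [db_eq_zero k this]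
    simp
  rw [indicator_of_mem (show ζ ∈ {ζ | 1 / 4 ≤ g ζ} from h4)]
  have hζ0 : ζ ≠ 0 := by
    rintro rfl
    rw [hg.zero] at h4
    norm_num at h4
  have hY : 0 < Yf g ζ z := by
    have := hg.D1_le hζ0 z
    unfold Yf
    linarith
  by_cases hv : ζ - z = 0
  · have hPc : ContinuousAt (fun ζ => Ph g ζ z) ζ := (hasFDerivAt_Ph hg hζ0 z).continuousAt
    have hYc : ContinuousAt (fun ζ => Yf g ζ z) ζ := (hasFDerivAt_Yf hg hζ0 z).continuousAt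
    have hP0 : Ph g ζ z = 0 := by
      unfold Ph L
      rw [hv]
      simp
    have : ∀ᶠ y in 𝓝 ζ, bker g y z = 0 := by
      have e1 : ∀ᶠ y in 𝓝 ζ, ‖Ph g y z‖ < Yf g y z / 4 := by
        refine ContinuousAt.eventually_lt hPc.norm (hYc.div_const 4) ?_
        simp only [hP0, norm_zero]
        positivity
      filter_upwards [e1] with y hy
      have hYy : 0 < Yf g y z := by
        have := norm_nonneg (Ph g y z)
        linarith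
      unfold bker
      rw [theta_of_le]
      · simp
      · rw [norm_div, Complex.norm_real, Real.norm_of_nonneg hYy.le, div_le_iff₀ hYy]
        linarith
    rw [db_eq_zero k this]
    simp
  -- the main case
  obtain ⟨hD1, hD2, hPs⟩ := hMζ ζ h4 hζ1.le
  have hzM : ‖z‖ ≤ M := hMz z hz.le
  have hζM : ‖ζ‖ ≤ M := hMz ζ hζ1.le
  have hvM : ‖ζ - z‖ ≤ M + M := (norm_sub_le _ _).trans (by linarith)
  have hn : 0 < ‖ζ - z‖ := norm_pos_iff.2 hv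
  obtain ⟨hA, φA, hφA, hφAn⟩ := Ak_bds hg (z := z) hζ0 hv hM0 hD1 hD2
  have hdY : ‖dYf g ζ z‖ ≤ M₁ := by
    refine (norm_dYf_le g ζ z).trans ?_
    rw [hM₁]
    gcongr
  have hdP : ‖dPh g ζ z‖ ≤ M₂ := by
    refine (norm_dPh_le g ζ z).trans ?_
    rw [hM₂]
    gcongr
  have hTh := norm_Th_le hY
  have hPsd : DifferentiableAt ℝ (Ps g) ζ := (contDiffAt_Ps hg hζ0).differentiableAt (by norm_num)
  -- differentiability of Th
  have hThd : DifferentiableAt ℝ (fun ζ => Th g ζ z) ζ := by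
    by_cases hP : ‖Ph g ζ z‖ ≤ Yf g ζ z / 2
    · obtain ⟨φ, h1, -⟩ := Th_near hg hζ0 hY hP hB0 hB hdY hdP
      exact h1.differentiableAt
    · exact (Th_far hg hζ0 hY (not_le.1 hP)).1
  have hAd : DifferentiableAt ℝ (fun ζ => Ak g ζ z) ζ := hφA.differentiableAt
  have hprod : db k (fun ζ => bker g ζ z) ζ =
      (db k (Ps g) ζ * Ak g ζ z + Ps g ζ * db k (fun ζ => Ak g ζ z) ζ) * Th g ζ z +
        Ps g ζ * Ak g ζ z * db k (fun ζ => Th g ζ z) ζ := by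
    have e1 : (fun ζ => bker g ζ z) = fun ζ => (Ps g ζ * Ak g ζ z) * Th g ζ z := rfl
    have hPA : DifferentiableAt ℝ (fun ζ => Ps g ζ * Ak g ζ z) ζ := hPsd.mul hAd
    rw [e1, db_mul k (u := fun ζ => Ps g ζ * Ak g ζ z) (v := fun ζ => Th g ζ z) hPA hThd,
      db_mul k (u := Ps g) (v := fun ζ => Ak g ζ z) hPsd hAd]
  have hdb1 : ‖db k (Ps g) ζ‖ ≤ M := (norm_db_le k _ _).trans hPs
  have hdb2 : ‖db k (fun ζ => Ak g ζ z) ζ‖ ≤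
      20 * M * (‖ζ - z‖ ^ 2)⁻¹ + 4 * M * ‖ζ - z‖⁻¹ := by
    refine (norm_db_le k _ _).trans ?_
    rw [hφA.fderiv]
    exact hφAn
  have hPs1 := norm_Ps_le (g := g) ζ
  have hinv : ‖ζ - z‖⁻¹ ≤ (M + M) * (‖ζ - z‖ ^ 2)⁻¹ := by
    calc ‖ζ - z‖⁻¹ = ‖ζ - z‖ * (‖ζ - z‖ ^ 2)⁻¹ := by field_simp
      _ ≤ (M + M) * (‖ζ - z‖ ^ 2)⁻¹ := by gcongr
  have hreal : ‖db k (fun ζ => bker g ζ z) ζ‖ ≤ C * rmaj g ζ z := by
    have t1 : ‖(db k (Ps g) ζ * Ak g ζ z + Ps g ζ * db k (fun ζ => Ak g ζ z) ζ) * Th g ζ z‖ ≤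
        C₁ * ((‖ζ - z‖ ^ 2)⁻¹ * (max ‖Ph g ζ z‖ (Yf g ζ z))⁻¹) := by
      rw [norm_mul]
      calc ‖db k (Ps g) ζ * Ak g ζ z + Ps g ζ * db k (fun ζ => Ak g ζ z) ζ‖ * ‖Th g ζ z‖
          ≤ (M * (4 * M * ((M + M) * (‖ζ - z‖ ^ 2)⁻¹)) +
            1 * (20 * M * (‖ζ - z‖ ^ 2)⁻¹ + 4 * M * ((M + M) * (‖ζ - z‖ ^ 2)⁻¹))) *
            (4 * (max ‖Ph g ζ z‖ (Yf g ζ z))⁻¹) := by
            refine mul_le_mul ?_ hTh (norm_nonneg _) (by positivity)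
            refine (norm_add_le _ _).trans ?_
            rw [norm_mul, norm_mul]
            gcongr
            · exact hA.trans (by gcongr)
            · exact hdb2.trans (by gcongr)
        _ = _ := by rw [hC₁]; ring
    have hmx0 : 0 ≤ (‖ζ - z‖ ^ 2)⁻¹ * (max ‖Ph g ζ z‖ (Yf g ζ z))⁻¹ := by positivity
    rw [hprod]
    refine (norm_add_le _ _).trans ?_
    by_cases hP : ‖Ph g ζ z‖ ≤ Yf g ζ z / 2
    · obtain ⟨φ, h1, h2⟩ := Th_near hg hζ0 hY hP hB0 hB hdY hdP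
      have h3 : ‖db k (fun ζ => Th g ζ z) ζ‖ ≤
          (B * (M₁ + M₂) + 4 * M₁) * (Yf g ζ z ^ 2)⁻¹ := by
        refine (norm_db_le k _ _).trans ?_
        rw [h1.fderiv]
        exact h2
      have t2 : ‖Ps g ζ * Ak g ζ z * db k (fun ζ => Th g ζ z) ζ‖ ≤
          C₃ * (‖ζ - z‖⁻¹ * (Yf g ζ z ^ 2)⁻¹) := by
        rw [norm_mul, norm_mul]
        calc ‖Ps g ζ‖ * ‖Ak g ζ z‖ * ‖db k (fun ζ => Th g ζ z) ζ‖
            ≤ 1 * (4 * M * ‖ζ - z‖⁻¹) * ((B * (M₁ + M₂) + 4 * M₁) * (Yf g ζ z ^ 2)⁻¹) := by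
              gcongr
          _ = _ := by rw [hC₃]; ring
      unfold rmaj
      rw [if_neg (not_lt.2 hP), if_pos hP, add_zero, hC]
      have hpos3 : 0 ≤ ‖ζ - z‖⁻¹ * (Yf g ζ z ^ 2)⁻¹ := by positivity
      have : 0 ≤ 4 * M := by positivity
      exact comb₁ t1 t2 hmx0 hpos3 hC₁0 this hC₃0
    · obtain ⟨-, h2⟩ := Th_far hg hζ0 hY (not_le.1 hP)
      have h3 := h2 k
      have h4' : ‖hk g k ζ (ζ - z)‖ ≤ ‖hk g 0 ζ (ζ - z)‖ + ‖hk g 1 ζ (ζ - z)‖ := by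
        have a0 := norm_nonneg (hk g 0 ζ (ζ - z))
        have a1 := norm_nonneg (hk g 1 ζ (ζ - z))
        fin_cases k
        · show ‖hk g 0 ζ (ζ - z)‖ ≤ _
          linarith
        · show ‖hk g 1 ζ (ζ - z)‖ ≤ _
          linarith
      have t2 : ‖Ps g ζ * Ak g ζ z * db k (fun ζ => Th g ζ z) ζ‖ ≤
          (4 * M) * (‖ζ - z‖⁻¹ * ((‖hk g 0 ζ (ζ - z)‖ + ‖hk g 1 ζ (ζ - z)‖) *
            (‖Ph g ζ z‖ ^ 2)⁻¹)) := by
        rw [norm_mul, norm_mul]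
        calc ‖Ps g ζ‖ * ‖Ak g ζ z‖ * ‖db k (fun ζ => Th g ζ z) ζ‖
            ≤ 1 * (4 * M * ‖ζ - z‖⁻¹) * ((‖hk g 0 ζ (ζ - z)‖ + ‖hk g 1 ζ (ζ - z)‖) *
              (‖Ph g ζ z‖ ^ 2)⁻¹) := by
              refine mul_le_mul (mul_le_mul hPs1 hA (norm_nonneg _) zero_le_one)
                (h3.trans ?_) (norm_nonneg _) (by positivity)
              gcongr
          _ = _ := by ring
      unfold rmaj
      rw [if_pos (not_le.1 hP), if_neg hP, add_zero, hC]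
      have hpos3 : 0 ≤ ‖ζ - z‖⁻¹ * ((‖hk g 0 ζ (ζ - z)‖ + ‖hk g 1 ζ (ζ - z)‖) *
            (‖Ph g ζ z‖ ^ 2)⁻¹) := by positivity
      have : 0 ≤ 4 * M := by positivity
      exact comb₂ t1 t2 hmx0 hpos3 hC₁0 this hC₃0
  calc ‖db k (fun ζ => bker g ζ z) ζ‖ₑ = ENNReal.ofReal ‖db k (fun ζ => bker g ζ z) ζ‖ :=
        (ofReal_norm _).symm
    _ ≤ ENNReal.ofReal (C * rmaj g ζ z) := ENNReal.ofReal_le_ofReal hreal
    _ = ENNReal.ofReal C * maj g ζ z := by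
      rw [ENNReal.ofReal_mul (by positivity), ofReal_rmaj hv hY]

end Db
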